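import Pool.Agent.H14.P4.Thin

/-!
# P4 with one closed context

`NFc1`: the closed lower bound of the target given the one closed context `c i j`. `P4T1`,
`P4Stmt1`: the local theorem with `NFc1` in place of `NFc`.
-/

set_option autoImplicit false

namespace Pool.P4

open Finset Real MvPolynomial
open Pool.Agent.H49.Ent Pool.Agent.H32.Dense Pool.STK Pool.STAT
open Pool.BFL (Pb)

/-- **The target is almost as full given the closed context**, from below: the digits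
`0, …, U z` of the target, given the natural digits of the base up to `B U z`, the closed context
and the exact time. -/
def NFc1 (D : NDat2) (n z M B : ℕ) (gam : ℕ → ℝ) (h C₁ : ℝ) (q : D.Ω → ℝ) : Prop :=
  ∀ i, 1 ≤ i → i ≤ M → ∀ j ≤ M, ∀ U : ℕ, i + U ≤ M → (U : ℝ) ≤ gam n * (M - j) →
    (1 - h) * (U * z) * Real.log 2 - C₁ * z ≤
      CH q (D.nd n i j (U * z))
        (fun ω => (D.nd n i j 0 ω, (D.vd n i j (B * (U * z)) ω, (D.c i j ω, D.T ω))))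

/-- **P4, the local theorem**, one closed context. -/
def P4T1 (n K A B : ℕ) (gam : ℕ → ℝ) (R : ℕ → Prop) (C₁ h δ : ℝ) : Prop :=
  ∃ (M Q K' : ℕ) (η' κ ϖ : ℝ) (z₀ : ℕ), 0 < η' ∧ 0 < κ ∧ 0 < ϖ ∧ ϖ ≤ 1 ∧
    ∀ (lam : ℕ → ℝ) (J a₀ w₀ z : ℕ) (D : NDat2) (q : D.Ω → ℝ) (U : GnL D),
      (∀ l, 1 ≤ l → l ≤ n → lam l = 1) → z₀ ≤ z →
      D.Ok2 n K J a₀ w₀ z M lam gam κ C₁ q → D.NF n z M B gam h C₁ ϖ q →
      NFc1 D n z M B gam (h + δ) C₁ q → D.TmU J w₀ z κ q → U.Ok n K J a₀ w₀ z M Q R C₁ q →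
      ∃ l, 1 ≤ l ∧ l ≤ n ∧ (l = n ∨ (R l ∧ gr gam n l)) ∧ ∃ i ≤ M, ∃ j ≤ M,
        NewLabT D U J a₀ w₀ z Q R i j l A K' η' q

/-- **P4**, all cells, one closed context. -/
def P4Stmt1 : Prop :=
  ∀ (n B : ℕ) (h₀ : ℝ), 1 ≤ n → 1 ≤ B → 0 < h₀ → ∃ δ : ℝ, 0 < δ ∧
    ∀ (K A : ℕ) (gam : ℕ → ℝ) (R : ℕ → Prop) (C₁ h : ℝ), h₀ ≤ h → h ≤ 1 → (∀ l, 0 ≤ gam l) →
    0 < gam n → (∀ l, gr gam n l → gam l < 1 + thd gam n) → (∀ l, sl gam n l → R l) → 1 ≤ C₁ →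
    P4T1 n K A B gam R C₁ h δ

/-- The two contexts contain the one. -/
theorem NFc1.of_two {D : NDat2} {n z M B : ℕ} {gam : ℕ → ℝ} {h C₁ : ℝ} {q : D.Ω → ℝ}
    (hq : ∀ ω, 0 ≤ q ω) (H : NFc D n z M B gam h C₁ q) : NFc1 D n z M B gam h C₁ q := by
  intro i h1 h2 j hj U hU hU'
  refine (H i h1 h2 j hj 0 (Nat.zero_le _) U hU hU').trans (CH_mono_cond hq ?_)
  intro ω ω' _ _ e
  simp only [Prod.mk.injEq] at e ⊢
  exact ⟨e.1, e.2.1, e.2.2.2⟩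

/-- Larger deficit, larger constant. -/
theorem NFc1.mono {D : NDat2} {n z M B : ℕ} {gam : ℕ → ℝ} {h h' C₁ C₁' : ℝ} {q : D.Ω → ℝ}
    (H : NFc1 D n z M B gam h C₁ q) (hh : h ≤ h') (hC : C₁ ≤ C₁') :
    NFc1 D n z M B gam h' C₁' q := by
  intro i hi1 hi j hj U hU hUg
  refine le_trans ?_ (H i hi1 hi j hj U hU hUg)
  have h1 : (0 : ℝ) ≤ (U * z) * Real.log 2 := by
    have := Real.log_pos (show (1 : ℝ) < 2 by norm_num)
    positivity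
  have h2 : C₁ * z ≤ C₁' * z := mul_le_mul_of_nonneg_right hC (Nat.cast_nonneg z)
  nlinarith only [h1, h2, hh]

/-- A smaller cell. -/
theorem NFc1.mono_M {D : NDat2} {n z M M' B : ℕ} {gam : ℕ → ℝ} {h C₁ : ℝ} {q : D.Ω → ℝ}
    (H : NFc1 D n z M B gam h C₁ q) (hM : M' ≤ M) (hg : 0 ≤ gam n) :
    NFc1 D n z M' B gam h C₁ q := by
  intro i hi1 hi j hj U hU hUg
  refine H i hi1 (hi.trans hM) j (hj.trans hM) U (hU.trans hM) (hUg.trans ?_)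
  have h1 : (M' : ℝ) ≤ M := by exact_mod_cast hM
  exact mul_le_mul_of_nonneg_left (by linarith) hg

end Pool.P4
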