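import Pool.Agent.H7.MIC.LLf
import Pool.Agent.H7.MIC.Ind
import Pool.Agent.H65.NFC.One

/-!
# The closed lower bound with two contexts from the one with one context

`nfc_two`: in a cell with collinear contexts (`DMP`) the lower bound of the target given the one
closed context gives the lower bound given two closed contexts, in a smaller cell.
-/

set_option autoImplicit false

namespace Pool.NFC65

open Finset Real MvPolynomial
open Pool.Agent.H49.Ent Pool.Agent.H32.Dense Pool.STK Pool.STAT Pool.MIC.Frm Pool.MIC24 Pool.DM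
open Pool.MIC Pool.MIC7
open Pool.BFL (Pb)
open Pool.PLK (plk_few det_vis vd_eq nd_eq hvS hdS)
open Pool.GSD (sd_vis)
open Pool.P4 (NFc NFc1)

/-- Coarser digits. -/
theorem flc {P P' : ℕ} (h : P ≤ P') (x : ℝ) :
    ⌊(2 : ℝ) ^ P * x⌋ = ⌊(2 : ℝ) ^ P' * x⌋ / 2 ^ (P' - P) := by
  have h1 : (2 : ℝ) ^ P * x = (2 : ℝ) ^ P' * x / ((2 ^ (P' - P) : ℕ) : ℝ) := by
    push_cast
    rw [show (2 : ℝ) ^ P' = 2 ^ (P' - P) * 2 ^ P by rw [← pow_add]; congr 1; omega]
    field_simp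
  rw [h1, Int.floor_div_natCast]
  push_cast
  rfl

/-- The digits of all coordinates determine the digits of the target. -/
theorem hvS_nd {D : NDat2} {n i j X X' : ℕ} (hn : 1 ≤ n) (h : X' ≤ X) {ω ω' : D.Ω}
    (e : hvS D n i j X (D.Ψ i j) ω = hvS D n i j X (D.Ψ i j) ω') :
    D.nd n i j X' ω = D.nd n i j X' ω' := by
  have h1 := congrFun e ⟨n - 1, by omega⟩
  unfold hvS at h1
  simp only at h1
  rw [show n - 1 + 1 = n by omega] at h1
  rw [nd_eq]
  unfold hdS at h1 ⊢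
  simp only
  rw [flc h, h1, ← flc h]

/-- The digits of all coordinates determine the digits of the base. -/
theorem hvS_vd {D : NDat2} {n i j X : ℕ} {ω ω' : D.Ω}
    (e : hvS D n i j X (D.Ψ i j) ω = hvS D n i j X (D.Ψ i j) ω') :
    D.vd n i j X ω = D.vd n i j X ω' := by
  rw [vd_eq]
  funext l
  exact congrFun e ⟨l, by omega⟩

/-- The number of the base digits. -/
theorem CH_vd {D : NDat2} {n K J a₀ w₀ z M : ℕ} {lam gam : ℕ → ℝ} {κ C₁ : ℝ} {q : D.Ω → ℝ}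
    (hO : D.Ok2 n K J a₀ w₀ z M lam gam κ C₁ q) {i j : ℕ} (hi : i ≤ M) (hj : j ≤ M) (X : ℕ)
    {β : Type} (W : D.Ω → β) :
    CH q (D.vd n i j X) W ≤ ((n - 1 : ℕ) : ℝ) * ((X + 2) * Real.log 2) := by
  have h := CH_le_card hO.isLaw.nonneg hO.isLaw.sum_one (D.vd n i j X) W (fun _ => Fv n X)
    (fun ω hω => vd_mem hO hi hj X hω)
  rw [Ex_const hO.isLaw.sum_one] at h
  exact h.trans (log_Fv n X)

/-- The number of the digits of the target. -/
theorem CH_nd {D : NDat2} {n K J a₀ w₀ z M : ℕ} {lam gam : ℕ → ℝ} {κ C₁ : ℝ} {q : D.Ω → ℝ}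
    (hn : 1 ≤ n) (hO : D.Ok2 n K J a₀ w₀ z M lam gam κ C₁ q) {i j : ℕ} (hi : i ≤ M) (hj : j ≤ M)
    (X : ℕ) {β : Type} (W : D.Ω → β) : CH q (D.nd n i j X) W ≤ (X + 2) * Real.log 2 := by
  have h := CH_le_card hO.isLaw.nonneg hO.isLaw.sum_one (D.nd n i j X) W
    (fun _ => Finset.Icc (-((2 : ℤ) ^ X)) (2 ^ X))
    (fun ω hω => fl_mem (hO.pos i hi j hj ω hω n hn le_rfl))
  rw [Ex_const hO.isLaw.sum_one] at h
  exact h.trans (log_icc X)

/-- **Two contexts from one.** -/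
theorem nfc_two (n K B : ℕ) (hn : 1 ≤ n) (hB : 1 ≤ B) (lam gam : ℕ → ℝ)
    (hlam : ∀ l, 1 ≤ l → l ≤ n → 1 ≤ lam l) (hgam : ∀ l, 0 ≤ gam l) (C₁ : ℝ) (hC₁ : 1 ≤ C₁) :
    ∃ C : ℝ, C₁ ≤ C ∧ ∀ M M' : ℕ, 2 ≤ M' → M + B * M < M' → M + B * M * M < M' →
    ∃ (κ₀ : ℝ) (z₀ : ℕ), 0 < κ₀ ∧
    ∀ (J a₀ w₀ z : ℕ) (κ κ' h : ℝ) (D : NDat2) (q : D.Ω → ℝ), z₀ ≤ z → κ ≤ κ₀ → κ' ≤ 1 →
      D.Ok2 n K J a₀ w₀ z M' lam gam κ C₁ q → D.DMP z M' κ' q →
      NFc1 D n z M' B gam h C₁ q → NFc D n z M B gam h C q := by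
  obtain ⟨c, hc⟩ := exists_nat_ge (2 * C₁)
  obtain ⟨C, hC, hfew⟩ := plk_few n K lam gam C₁ hC₁ c
  have hn0 : (0 : ℝ) ≤ n := Nat.cast_nonneg n
  have hl0 : 0 ≤ Real.log 2 := (Real.log_pos (by norm_num)).le
  have hl1 : Real.log 2 ≤ 1 := by
    have := Real.log_two_lt_d9
    linarith
  refine ⟨C + C₁ + 3 + 2 * n + 2, by linarith, fun M M' hM hM1 hM2 => ?_⟩
  have hη : (0 : ℝ) < 1 / ((B : ℝ) * M + 1) := by positivity
  obtain ⟨κ₀, z₀, hκ₀, hfew⟩ := hfew M' (1 / ((B : ℝ) * M + 1)) hM hη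
  refine ⟨min κ₀ 1, max z₀ 1, lt_min hκ₀ one_pos, ?_⟩
  intro J a₀ w₀ z κ κ' h D q hz hκ hκ' hO hD hN i hi1 hi j hj s hs U hU hU'
  have hq := hO.isLaw.nonneg
  have hz1 : 1 ≤ z := (le_max_right _ _).trans hz
  have hzr : (1 : ℝ) ≤ z := by exact_mod_cast hz1
  have hκ1 : κ ≤ 1 := hκ.trans (min_le_right _ _)
  have hiM : i < M' := by omega
  have hjM : j < M' := by omega
  have hUM : U ≤ M := by omega
  have hsM : s ≤ M := hs.trans hj
  have h1 : i + B * U * 1 < M' := by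
    have := Nat.mul_le_mul_left B hUM
    omega
  have h2 : j + B * U * s < M' := by
    have : B * U * s ≤ B * M * M := Nat.mul_le_mul (Nat.mul_le_mul_left B hUM) hsM
    omega
  -- the digits of all coordinates are functions of the contexts on the right
  have dT : Det q (fun ω => (D.bck i j 1 s (B * U) ω, (D.c i j ω, D.T ω))) D.T :=
    fun ω ω' _ _ e => congrArg (fun x => x.2.2) e
  have dc : Det q (fun ω => (D.bck i j 1 s (B * U) ω, (D.c i j ω, D.T ω))) (D.c i j) :=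
    fun ω ω' _ _ e => congrArg (fun x => x.2.1) e
  have db : Det q (fun ω => (D.bck i j 1 s (B * U) ω, (D.c i j ω, D.T ω)))
      (D.c (i + B * U * 1) (j + B * U * s)) := by
    intro ω ω' _ _ e
    have e0 : D.bck i j 1 s (B * U) ω = D.bck i j 1 s (B * U) ω' := congrArg (fun x => x.1) e
    have e1 : D.c (i + B * U * 1) (j + B * U * s) ω = D.c (i + B * U * 1) (j + B * U * s) ω' :=
      congrFun e0 (Fin.last (B * U))
    exact e1
  have f1 := det_vis hO hiM.le hjM.le dc dT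
  have f2 := det_vis hO h1.le h2.le db dT
  have few := hfew J a₀ w₀ z κ D q ((le_max_left _ _).trans hz) (hκ.trans (min_le_left _ _)) hO
    i j (i + B * U * 1) (j + B * U * s) i j n (B * (U * z))
    (D.Ψ i j) (D.Ψ (i + B * U * 1) (j + B * U * s)) (D.Ψ i j) _
    (fun ω => (D.bck i j 1 s (B * U) ω, (D.c i j ω, D.T ω)))
    hiM hjM h1 h2 hiM hjM le_rfl (fun ω hω => sd_vis hO hiM.le hjM.le hω)
    (fun ω hω => sd_vis hO h1.le h2.le hω) (fun ω hω => sd_vis hO hiM.le hjM.le hω)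
    f1 f2 f1 dT
    (fun l hl => Or.inl (by
      have e1 := hlam (l + 1) (by omega) (by omega)
      have e2 := hgam (l + 1)
      have := lev_pos hO (U := B * U) (l := l + 1) hc h1.le h2.le (by omega) (by omega) (by
        push_cast
        have e3 : (0 : ℝ) ≤ (B : ℝ) * U := by positivity
        have e4 : (0 : ℝ) ≤ gam (l + 1) * ((B : ℝ) * U * s) := by positivity
        nlinarith)
      rwa [Nat.mul_assoc] at this))
    (fun l _ => Nat.le_add_right _ _)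
  have few2 : CH q (fun ω => (D.nd n i j (U * z) ω, D.vd n i j (B * (U * z)) ω))
      (fun ω => (D.bck i j 1 s (B * U) ω, (D.c i j ω, D.T ω))) ≤
      C * z + 1 / ((B : ℝ) * M + 1) * ((B * (U * z) : ℕ) : ℝ) :=
    (CH_mono_left hq fun ω ω' _ _ e => by
      have e1 := (Prod.ext_iff.1 e).1
      exact Prod.ext (hvS_nd hn (Nat.le_mul_of_pos_left _ hB) e1) (hvS_vd e1)).trans few
  have hη2 : 1 / ((B : ℝ) * M + 1) * ((B * (U * z) : ℕ) : ℝ) ≤ z := by
    rw [one_div, inv_mul_le_iff₀ (by positivity)]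
    push_cast
    have e1 : (U : ℝ) ≤ M := by exact_mod_cast hUM
    have e2 : (B : ℝ) * U ≤ B * M + 1 := by
      have := mul_le_mul_of_nonneg_left e1 (Nat.cast_nonneg (α := ℝ) B)
      linarith
    calc (B : ℝ) * (U * z) = B * U * z := by ring
      _ ≤ (B * M + 1) * z := mul_le_mul_of_nonneg_right e2 (by linarith)
  -- independence
  have hY : CH q (D.frt i j 1 s 1) (fun ω => (D.frt i j 1 s 1 ω, (D.c i j ω, D.T ω))) ≤ 0 :=
    (CH_eq_zero hq (fun _ _ _ _ e => congrArg (fun x => x.1) e)).le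
  have h6 := (hD.use hq (s := B * U) (s' := 1) h1.le h2.le (by omega) (by omega) few2 hY).1
  -- from below
  have hf := hO.full i hiM.le j hjM.le (B * U) (by omega)
  rw [Nat.mul_assoc] at hf
  have hN1 := hN i hi1 (by omega) j (by omega) U (by omega) (hU'.trans (by
    have e1 : (M : ℝ) ≤ M' := by
      have : M ≤ M' := by omega
      exact_mod_cast this
    exact mul_le_mul_of_nonneg_left (by linarith) (hgam n)))
  rw [CH_chain hq] at h6
  have a1 : CH q (D.nd n i j (U * z))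
      (fun ω => (D.nd n i j 0 ω, (D.vd n i j (B * (U * z)) ω, (D.c i j ω, D.T ω)))) ≤
      CH q (D.nd n i j (U * z)) (fun ω => (D.vd n i j (B * (U * z)) ω, (D.c i j ω, D.T ω))) :=
    CH_mono_cond hq fun ω ω' _ _ e => (Prod.ext_iff.1 e).2
  -- from above
  rw [CH_chain hq] at h6
  have a2 := CH_vd hO hiM.le hjM.le (B * (U * z))
    (fun ω => (D.frt i j 1 s 1 ω, (D.c i j ω, D.T ω)))
  have a3 := CH_le_add hq (D.nd n i j (U * z)) (D.nd n i j 0)
    (fun ω => (D.vd n i j (B * (U * z)) ω, (D.frt i j 1 s 1 ω, (D.c i j ω, D.T ω))))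
  have a4 := CH_nd hn hO hiM.le hjM.le 0
    (fun ω => (D.vd n i j (B * (U * z)) ω, (D.frt i j 1 s 1 ω, (D.c i j ω, D.T ω))))
  have a5 : CH q (D.nd n i j (U * z)) (fun ω => (D.nd n i j 0 ω,
      (D.vd n i j (B * (U * z)) ω, (D.frt i j 1 s 1 ω, (D.c i j ω, D.T ω))))) ≤
      CH q (D.nd n i j (U * z)) (fun ω => (D.nd n i j 0 ω,
        (D.vd n i j (B * (U * z)) ω, (D.c (i - 1) (j - s) ω, (D.c i j ω, D.T ω))))) := by
    refine CH_mono_cond hq fun ω ω' _ _ e => ?_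
    simp only [Prod.mk.injEq] at e ⊢
    refine ⟨e.1, e.2.1, ?_, e.2.2.2⟩
    have e1 : D.c (i - 1 * 1) (j - 1 * s) ω = D.c (i - 1 * 1) (j - 1 * s) ω' :=
      congrFun e.2.2.1 (1 : Fin (1 + 1))
    rwa [Nat.one_mul, Nat.one_mul] at e1
  have e7 : ((n - 1 : ℕ) : ℝ) * (((B * (U * z) : ℕ) + 2) * Real.log 2) ≤
      ((n - 1 : ℕ) : ℝ) * ((B * U : ℕ) * z) * Real.log 2 + 2 * n * z := by
    have e8 : ((n - 1 : ℕ) : ℝ) ≤ n := by exact_mod_cast Nat.sub_le n 1
    have e9 : ((n - 1 : ℕ) : ℝ) * (2 * Real.log 2) ≤ n * (2 * z) :=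
      mul_le_mul e8 (by linarith) (by linarith) hn0
    push_cast
    nlinarith
  have e10 : ((0 : ℕ) + 2 : ℝ) * Real.log 2 ≤ 2 * z := by
    push_cast
    linarith
  have e11 : κ * z ≤ z := by
    have := mul_le_mul_of_nonneg_right hκ1 (by linarith : (0 : ℝ) ≤ z)
    linarith
  have e12 : κ' * z ≤ z := by
    have := mul_le_mul_of_nonneg_right hκ' (by linarith : (0 : ℝ) ≤ z)
    linarith
  linarith

end Pool.NFC65
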