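import Pool.Agent.H35.P4.Red2
import Pool.Agent.H6.SYS2.Cor
import Pool.Agent.H65.NFC.Two

/-!
# The reduction of the local theorem with one closed context

`red3`: the local theorem in the cells with `DMA`, `LLC` and two closed contexts (all constants
`C₁`, `CL`) gives the local theorem with the one closed context `NFc1`.
`dmp_two`: a variable which is a function of the contexts on the right is almost independent of the
context `c (i - 1) (j - s)`.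
-/

set_option autoImplicit false

namespace Pool.NFC65

open Finset Real MvPolynomial
open Pool.Agent.H49.Ent Pool.Agent.H32.Dense Pool.STK Pool.STAT
open Pool.P4 (NFc NFc1 GnL NewLabT LLC ok2_one sub_dmp)

/-- **Functions of the contexts on the right**: `X` and `Y` are functions of the contexts up to
`(i + V, j + V s)`: the second closed context does not change the entropy of `X` given `Y`. -/
theorem dmp_two {D : NDat2} {z M : ℕ} {κ : ℝ} {q : D.Ω → ℝ} (hD : D.DMP z M κ q)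
    (hq : ∀ ω, 0 ≤ q ω) {i j s V : ℕ} (h1 : i + V ≤ M) (h2 : j + V * s ≤ M) (h3 : 1 ≤ i)
    (h4 : s ≤ j) {S₁ S₂ : Type} {X : D.Ω → S₁} {Y : D.Ω → S₂} {e : ℝ}
    (hXY : CH q (fun ω => (X ω, Y ω))
      (fun ω => (D.bck i j 1 s V ω, (D.c i j ω, D.T ω))) ≤ e) :
    CH q X (fun ω => (Y ω, (D.c i j ω, D.T ω))) ≤
      CH q X (fun ω => (Y ω, (D.c (i - 1) (j - s) ω, (D.c i j ω, D.T ω)))) + (κ * z + e) := by
  have hY : CH q (D.frt i j 1 s 1) (fun ω => (D.frt i j 1 s 1 ω, (D.c i j ω, D.T ω))) ≤ 0 :=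
    (CH_eq_zero hq (fun _ _ _ _ e => congrArg (fun x => x.1) e)).le
  have h6 := (hD.use hq (s := V) (s' := 1) (by omega) h2 (by omega) (by omega) hXY hY).1
  rw [CH_chain hq, CH_chain hq] at h6
  have a1 : CH q Y (fun ω => (D.frt i j 1 s 1 ω, (D.c i j ω, D.T ω))) ≤
      CH q Y (fun ω => (D.c i j ω, D.T ω)) :=
    CH_mono_cond hq fun ω ω' _ _ e => (Prod.ext_iff.1 e).2
  have a2 : CH q X (fun ω => (Y ω, (D.frt i j 1 s 1 ω, (D.c i j ω, D.T ω)))) ≤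
      CH q X (fun ω => (Y ω, (D.c (i - 1) (j - s) ω, (D.c i j ω, D.T ω)))) := by
    refine CH_mono_cond hq fun ω ω' _ _ e => ?_
    simp only [Prod.mk.injEq] at e ⊢
    refine ⟨e.1, ?_, e.2.2⟩
    have e1 : D.c (i - 1 * 1) (j - 1 * s) ω = D.c (i - 1 * 1) (j - 1 * s) ω' :=
      congrFun e.2.1 (1 : Fin (1 + 1))
    rwa [Nat.one_mul, Nat.one_mul] at e1
  linarith

/-- **The local theorem**, in a cell with the additional laws, two closed contexts; `Cl`: the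
coordinates for which a new label is a conclusion. -/
def X2G (Cl : ℕ → Prop) (n K A B : ℕ) (gam : ℕ → ℝ) (R : ℕ → Prop) (C₁ CL h δ : ℝ) : Prop :=
  ∃ (M Q K' : ℕ) (η' κ ϖ : ℝ) (z₀ : ℕ), 0 < η' ∧ 0 < κ ∧ 0 < ϖ ∧ ϖ ≤ 1 ∧
    ∀ (lam : ℕ → ℝ) (J a₀ w₀ z : ℕ) (D : NDat2) (q : D.Ω → ℝ) (U : GnL D),
      (∀ l, 1 ≤ l → l ≤ n → lam l = 1) → z₀ ≤ z →
      D.Ok2 n K J a₀ w₀ z M lam gam κ C₁ q → D.DMA z M κ q → LLC D n z M CL q →
      D.TmU J w₀ z κ q → D.NF n z M B gam h C₁ ϖ q → NFc D n z M B gam (h + δ) C₁ q →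
      U.Ok n K J a₀ w₀ z M Q R C₁ q →
      ∃ l, 1 ≤ l ∧ l ≤ n ∧ (l = n ∨ (R l ∧ Cl l)) ∧ ∃ i ≤ M, ∃ j ≤ M,
        NewLabT D U J a₀ w₀ z Q R i j l A K' η' q

/-- **The local theorem**, one closed context. -/
def T1G (Cl : ℕ → Prop) (n K A B : ℕ) (gam : ℕ → ℝ) (R : ℕ → Prop) (C₁ h δ : ℝ) : Prop :=
  ∃ (M Q K' : ℕ) (η' κ ϖ : ℝ) (z₀ : ℕ), 0 < η' ∧ 0 < κ ∧ 0 < ϖ ∧ ϖ ≤ 1 ∧
    ∀ (lam : ℕ → ℝ) (J a₀ w₀ z : ℕ) (D : NDat2) (q : D.Ω → ℝ) (U : GnL D),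
      (∀ l, 1 ≤ l → l ≤ n → lam l = 1) → z₀ ≤ z →
      D.Ok2 n K J a₀ w₀ z M lam gam κ C₁ q → D.NF n z M B gam h C₁ ϖ q →
      NFc1 D n z M B gam (h + δ) C₁ q → D.TmU J w₀ z κ q → U.Ok n K J a₀ w₀ z M Q R C₁ q →
      ∃ l, 1 ≤ l ∧ l ≤ n ∧ (l = n ∨ (R l ∧ Cl l)) ∧ ∃ i ≤ M, ∃ j ≤ M,
        NewLabT D U J a₀ w₀ z Q R i j l A K' η' q

/-- The one closed context in a sub-cell. -/
theorem NFc1.sc {D : NDat2} {n K J a₀ w₀ z M i₀ j₀ N M' B : ℕ} {lam gam : ℕ → ℝ} {κ C₁ h : ℝ}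
    {q : D.Ω → ℝ} (hN : NFc1 D n z M B gam h C₁ q)
    (hO : D.Ok2 n K J a₀ w₀ z M lam gam κ C₁ q) (hG : NDat2.SubG i₀ j₀ N M' M)
    (hg : 0 ≤ gam n) (hC : 0 ≤ C₁) :
    NFc1 (D.sc J w₀ i₀ j₀ N z) n (N * z) M' B gam h C₁ q := by
  intro i hi1 hi j hj U hU hU'
  have hz : (0 : ℝ) ≤ z := Nat.cast_nonneg z
  have hN1 := hG.N_pos
  have hNr : (1 : ℝ) ≤ N := by exact_mod_cast hN1
  have hiN : 1 ≤ i * N := Nat.mul_pos hi1 hN1
  have h1 := hN (i₀ + i * N) (by omega) (hG.lei hi) (j₀ + j * N) (hG.lej hj)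
    (U * N) (by
      have h2 := hG.lei hU
      rw [Nat.add_mul] at h2
      omega) (by
      have h2 : (((j₀ + M' * N : ℕ)) : ℝ) ≤ M := by exact_mod_cast hG.lej le_rfl
      have h3 : (0 : ℝ) ≤ N := Nat.cast_nonneg N
      have h4 := mul_le_mul_of_nonneg_right hU' h3
      have h5 : gam n * ((M' - j) * N) ≤ gam n * (M - ((j₀ + j * N : ℕ) : ℝ)) := by
        refine mul_le_mul_of_nonneg_left ?_ hg
        push_cast at h2 ⊢
        linarith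
      push_cast at h5 ⊢
      linarith)
  have e1 : U * N * z = U * (N * z) := by ring
  rw [e1] at h1
  refine le_trans ?_ h1
  have h2 : C₁ * z ≤ C₁ * (N * z) :=
    mul_le_mul_of_nonneg_left (le_mul_of_one_le_left hz hNr) hC
  push_cast
  have h3 : (U : ℝ) * N * z = U * (N * z) := by ring
  rw [h3]
  linarith

theorem DMA_M {D : NDat2} {z M M' : ℕ} {κ : ℝ} {q : D.Ω → ℝ} (h : D.DMA z M κ q)
    (hM : M' ≤ M) : D.DMA z M' κ q :=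
  fun i j a b s s' h1 h2 h3 h4 => h i j a b s s' (h1.trans hM) h2 h3 (h4.trans hM)

theorem LLC_M {D : NDat2} {n z M M' : ℕ} {C : ℝ} {q : D.Ω → ℝ} (h : LLC D n z M C q)
    (hM : M' ≤ M) : LLC D n z M' C q :=
  fun i j r U h1 h2 h3 h4 => h i j r U h1 h2 (h3.trans_le hM) (h4.trans_le hM)

/-- Labels with gain in a smaller cell, larger constant. -/
theorem gnL_M {D : NDat2} {U : GnL D} {n K J a₀ w₀ z M M' Q : ℕ} {R : ℕ → Prop} {C₁ C₁' : ℝ}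
    {q : D.Ω → ℝ} (h : U.Ok n K J a₀ w₀ z M Q R C₁ q) (hM : M' ≤ M) (hC : C₁ ≤ C₁') :
    U.Ok n K J a₀ w₀ z M' Q R C₁' q where
  degD := h.degD
  degL := h.degL
  varD := h.varD
  varL := h.varL
  deep l h1 h2 h3 i hi j hj := h.deep l h1 h2 h3 i (hi.trans hM) j (hj.trans hM)
  own := h.own
  two l h1 h2 h3 i hi j hj := h.two l h1 h2 h3 i (hi.trans hM) j (hj.trans hM)
  near l h1 h2 h3 i hi j hj ω hω b hb :=
    (h.near l h1 h2 h3 i (hi.trans hM) j (hj.trans hM) ω hω b hb).trans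
      (div_le_div_of_nonneg_right
        (Real.exp_le_exp.2 (mul_le_mul_of_nonneg_right hC (Nat.cast_nonneg z))) (by positivity))

/-- **The reduction to two closed contexts.** -/
theorem red3 {Cl : ℕ → Prop} {n K A B : ℕ} {gam : ℕ → ℝ} {R : ℕ → Prop} {C₁ h δ : ℝ}
    (hn : 1 ≤ n) (hB : 1 ≤ B) (hgam : ∀ l, 0 ≤ gam l) (hC : 1 ≤ C₁)
    (H : ∀ C₂ : ℝ, C₁ ≤ C₂ → ∀ CL : ℝ, X2G Cl n K A B gam R C₂ CL h δ) :
    T1G Cl n K A B gam R C₁ h δ := by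
  obtain ⟨CL, -, hL⟩ := Pool.MIC7.llc_all n K (fun _ => 1) gam C₁ hC (fun _ _ _ => le_rfl) hgam
  obtain ⟨C₂, hC₂, hT2⟩ := nfc_two n K B hn hB (fun _ => 1) gam (fun _ _ _ => le_rfl) hgam C₁ hC
  obtain ⟨M', Q', K', η', κ', ϖ, z₁, hη', hκ', hϖ, hϖ1, H⟩ := H C₂ hC₂ CL
  obtain ⟨M₂, hM₂⟩ : ∃ M₂ : ℕ, M₂ = M' + B * M' * M' + B * M' + 2 := ⟨_, rfl⟩
  have hMM : M' ≤ M₂ := by omega
  obtain ⟨κ₃, z₃, hκ₃, hL⟩ := hL M₂ (by omega)
  obtain ⟨κ₄, z₄, hκ₄, hT2⟩ := hT2 M' M₂ (by omega) (by omega) (by omega)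
  obtain ⟨κs, hκs⟩ : ∃ κs : ℝ, κs = min (min κ' κ₄) (min κ₃ 1) := ⟨_, rfl⟩
  have hs0 : 0 < κs := by rw [hκs]; exact lt_min (lt_min hκ' hκ₄) (lt_min hκ₃ one_pos)
  have hs1 : κs ≤ κ' := by rw [hκs]; exact (min_le_left _ _).trans (min_le_left _ _)
  have hs4 : κs ≤ κ₄ := by rw [hκs]; exact (min_le_left _ _).trans (min_le_right _ _)
  have hs2 : κs ≤ κ₃ := by rw [hκs]; exact (min_le_right _ _).trans (min_le_left _ _)
  have hs3 : κs ≤ 1 := by rw [hκs]; exact (min_le_right _ _).trans (min_le_right _ _)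
  obtain ⟨M, κ, z₂, hκ, H2⟩ := sub_dmp n K hn (fun _ => 1) gam (fun _ _ _ => le_rfl) hgam C₁
    (by linarith) M₂ 2 κs hs0
  refine ⟨M, Q' * (M + 1), K', η', min κ κs, ϖ, max (max z₁ z₄) (max z₂ z₃), hη',
    lt_min hκ hs0, hϖ, hϖ1, ?_⟩
  intro lam J a₀ w₀ z D q U hlam hz hO' hN hNc hT hU
  have hz1 : z₁ ≤ z := ((le_max_left _ _).trans (le_max_left _ _)).trans hz
  have hz4 : z₄ ≤ z := ((le_max_right _ _).trans (le_max_left _ _)).trans hz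
  have hz2 : z₂ ≤ z := ((le_max_left _ _).trans (le_max_right _ _)).trans hz
  have hz3 : z₃ ≤ z := ((le_max_right _ _).trans (le_max_right _ _)).trans hz
  have hO := ok2_one hO' hlam
  obtain ⟨N, i₀, j₀, hN2, hG, -, hF, hP⟩ := H2 J a₀ w₀ z D q hz2 (hO.mono_κ (min_le_left _ _))
  have hNR : (2 : ℝ) ≤ N := by exact_mod_cast hN2
  have hκN : min κ κs ≤ κs * N := by
    have h1 : κs * 1 ≤ κs * N := mul_le_mul_of_nonneg_left (by linarith) hs0.le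
    exact (min_le_right _ _).trans (by linarith)
  have hC0 : 0 ≤ C₁ := by linarith
  have hCN : C₁ ≤ C₁ * N := by
    have h1 : C₁ * 1 ≤ C₁ * N := mul_le_mul_of_nonneg_left (by linarith) hC0
    linarith
  have hNM : N ≤ M + 1 := by
    have h1 := hG.i_le
    have h2 : N ≤ (M₂ + 1) * N := Nat.le_mul_of_pos_left N (by omega)
    omega
  have hQ : Q' * N ≤ Q' * (M + 1) := Nat.mul_le_mul_left Q' hNM
  have hzN : z ≤ N * z := Nat.le_mul_of_pos_left _ (by omega)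
  have hj₀ : w₀ + j₀ * z ≤ J := by
    have h1 := hG.lej (Nat.zero_le M₂)
    rw [Nat.zero_mul, Nat.add_zero] at h1
    have h2 : j₀ * z ≤ (M + 1) * z := Nat.mul_le_mul_right z (by omega)
    have h3 := hO.thin
    have h4 := hO.top
    omega
  have hOs := hO.sc hG hN2 hC0 hκN
  have hNs : (D.sc J w₀ i₀ j₀ N z).NF n (N * z) M₂ B gam h C₁ ϖ q := hN.sc hG (hgam n) hCN
  have hUs := hU.sc hG hC0 hQ hj₀
  obtain ⟨l, l1, l2, hl, i, hi, j, hj, hlab⟩ := H (fun _ => 1) J (a₀ + i₀ * z) (w₀ + j₀ * z)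
    (N * z) (D.sc J w₀ i₀ j₀ N z) q (U.sc J w₀ i₀ j₀ N z) (fun _ _ _ => rfl) (hz1.trans hzN)
    (((hOs.subM hMM).mono le_rfl hs1 hC₂)) (DMA_M (hF.mono hs1) hMM)
    (LLC_M (fun i j r U => hL J (a₀ + i₀ * z) (w₀ + j₀ * z) (N * z) κs κs (D.sc J w₀ i₀ j₀ N z) q
      (hz3.trans hzN) hs2 hs3 hOs hP i j r U) hMM)
    (by
      have h1 := hT.sc hO hG hκN
      unfold NDat2.TmU at h1 ⊢
      have h2 : κs * ((N * z : ℕ) : ℝ) ≤ κ' * ((N * z : ℕ) : ℝ) :=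
        mul_le_mul_of_nonneg_right hs1 (Nat.cast_nonneg _)
      linarith)
    ((hNs.subM (hgam n) hMM).mono le_rfl hC₂ le_rfl)
    (hT2 J (a₀ + i₀ * z) (w₀ + j₀ * z) (N * z) κs κs (h + δ) (D.sc J w₀ i₀ j₀ N z) q
      (hz4.trans hzN) hs4 hs3 hOs hP (NFc1.sc hNc hO hG (hgam n) hC0))
    (gnL_M hUs hMM hC₂)
  have hj' : j ≤ M₂ := hj.trans hMM
  exact ⟨l, l1, l2, hl, _, hG.lei (hi.trans hMM), _, hG.lej hj',
    NewLabT.of_sc hO.isLaw.nonneg hG hO.thin hO.top hj' hQ hlab⟩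

end Pool.NFC65
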