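import Pool.Agent.H65.NFC.Fam
import Pool.Agent.H71.GEN.Zab
import Pool.Agent.H78.MIC.GenT

/-!
# The rows of the target given the closed context, for a class

`RtP`: the rate of the target at one place of the grid. `nfc_fld`: the field `NFc1` of the cells of a
real grid from the rates at the places of the grid.
-/

set_option autoImplicit false

namespace Pool.NFC65

open Finset MvPolynomial
open Pool.Agent.H49.Ent Pool.Agent.H32.Dense Pool.STK Pool.KS3 Pool.STAT Pool.STAT.CLO Pool.MIC6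
open Pool.KA Pool.KSAT Pool.PB Pool.GEN Pool.K2S Pool.S6C
open Pool.P4 (NFc1)

variable {m J n : ℕ}

/-- **The rate of the target at one place**: the digits `P, …, Q` given the digits before, the base to
`Jd` digits, the context and the time. -/
def RtP {F : Fam m J} (D : GDat F) (c : ℕ → Fin m) (n : ℕ) {R : ℕ → ℕ → Type}
    (ρ : (i j : ℕ) → LnT F → R i j) (w₀ z i j Jd P Q : ℕ) (r : ℝ) (q : F.Ω → ℝ) : Prop :=
  r ≤ CH q (fun ω => F.X Q ω (c (n - 1))) (fun ω => (F.X P ω (c (n - 1)),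
    ((fun l : Fin (n - 1) => F.X Jd ω (c l)), ((D.cd n ρ).lab2 w₀ z i j ω, F.T ω))))

theorem X_eq {F : Fam m J} {c : ℕ → Fin m} (hn : 1 ≤ n) (p : ℕ) (ω : F.Ω) :
    ⌊(2 : ℝ) ^ p * cx F (fun i => c (i - 1)) ω n⌋ = F.X p ω (c (n - 1)) := by
  show ⌊(2 : ℝ) ^ p * (if n = 0 then F.t ω else F.x ω (c (n - 1)))⌋ = _
  rw [if_neg (by omega)]
  rfl

/-- **The digits of the target at two near places.** -/
theorem X_few {F : Fam m J} {q : F.Ω → ℝ} (hq : IsLaw q) {k k' d : ℕ} (hk : k' ≤ k + d) (i : Fin m)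
    {W : Type} {y : F.Ω → W} (hy : Det q y (fun ω => F.X k ω i)) :
    CH q (fun ω => F.X k' ω i) y ≤ Real.log (5 * 2 ^ d) := by
  have key := CH_le_int hq.nonneg hq.sum_one (fun ω => F.X k' ω i) y (fun _ => 2 ^ d + 1)
    (fun ω ω' hω hω' e => by
      have h1 : |F.x ω i - F.x ω' i| ≤ 1 / 2 ^ k := floor_near (hy ω ω' hω hω' e)
      have h2 : |(((⌊(2 : ℝ) ^ k' * F.x ω i⌋ - ⌊(2 : ℝ) ^ k' * F.x ω' i⌋ : ℤ)) : ℝ)| ≤
          2 ^ k' * (1 / 2 ^ k) + 1 := hgt_diff h1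
      refine h2.trans ?_
      have h3 : (2 : ℝ) ^ k' * (1 / 2 ^ k) ≤ 2 ^ d := by
        rw [mul_one_div, div_le_iff₀ (by positivity), ← pow_add]
        exact pow_le_pow_right₀ one_le_two (by omega)
      linarith)
  rw [Ex_const hq.sum_one] at key
  refine key.trans (Real.log_le_log (by positivity) ?_)
  have h1 : (1 : ℝ) ≤ 2 ^ d := one_le_pow₀ one_le_two
  linarith

/-- The digits are a function of finer digits. -/
theorem X_det (F : Fam m J) {k k' : ℕ} (h : k ≤ k') (i : Fin m) {ω ω' : F.Ω}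
    (e : F.X k' ω i = F.X k' ω' i) : F.X k ω i = F.X k ω' i := by
  have h1 : ∀ ω : F.Ω, F.X k ω i = F.X k' ω i / 2 ^ (k' - k) := by
    intro ω
    show ⌊(2 : ℝ) ^ k * F.x ω i⌋ = ⌊(2 : ℝ) ^ k' * F.x ω i⌋ / 2 ^ (k' - k)
    have h2 := Int.floor_div_natCast ((2 : ℝ) ^ k' * F.x ω i) (2 ^ (k' - k))
    push_cast at h2
    rw [← h2]
    congr 1
    obtain ⟨a, rfl⟩ := Nat.exists_eq_add_of_le h
    rw [Nat.add_sub_cancel_left, pow_add]
    field_simp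
  rw [h1, h1, e]

/-- **From the rates at the places of the grid to the rates of the cell**, one family. -/
theorem rtn_of {F : Fam m J} {D : GDat F} {c : ℕ → Fin m} {R : ℕ → ℕ → Type}
    {ρ : (i j : ℕ) → LnT F → R i j} (hn : 1 ≤ n) {sh : ℕ → ℕ} {w₀ z M i j U Jd P Q : ℕ}
    {g : ℕ → ℕ → ℕ → ℕ} {r : ℝ} {q : F.Ω → ℝ} (hq : IsLaw q)
    (hP : g i j (n - 1) - sh n ≤ P) {d : ℕ} (hQ : Q ≤ g i j (n - 1) - sh n + U * z + d)
    (h : RtP D c n ρ w₀ z i j Jd P Q r q) :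
    r - Real.log (5 * 2 ^ d) ≤
      CH q (fun ω => ⌊(2 : ℝ) ^ ((D.nd c n sh w₀ z M g ρ).g i j n + U * z) *
          (D.nd c n sh w₀ z M g ρ).X ω n⌋)
        (fun ω => (⌊(2 : ℝ) ^ ((D.nd c n sh w₀ z M g ρ).g i j n) *
          (D.nd c n sh w₀ z M g ρ).X ω n⌋,
          (MIC6.vj (D.nd c n sh w₀ z M g ρ) n Jd ω,
            ((D.nd c n sh w₀ z M g ρ).c i j ω, (D.nd c n sh w₀ z M g ρ).T ω)))) := by
  have hg : (D.nd c n sh w₀ z M g ρ).g i j n = g i j (n - 1) - sh n :=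
    CDat2.nd2_g _ _ _ _ _ _ _ hn
  rw [hg]
  obtain ⟨p, hp⟩ : ∃ p, p = g i j (n - 1) - sh n := ⟨_, rfl⟩
  rw [← hp] at hP hQ ⊢
  obtain ⟨Vj, hVj⟩ : ∃ Vj : F.Ω → Fin (n - 1) → ℤ, Vj = fun (ω : F.Ω)
    (l : Fin (n - 1)) => F.X Jd ω (c l) := ⟨_, rfl⟩
  obtain ⟨La, hLa⟩ : ∃ La : F.Ω → (((i' j' : ℕ) → Option ((D.cd n ρ).V i' j')) × ℕ) × ℕ,
      La = fun ω => ((D.cd n ρ).lab2 w₀ z i j ω, F.T ω) := ⟨_, rfl⟩
  have h0 : r ≤ CH q (fun ω => F.X Q ω (c (n - 1)))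
      (fun ω => (F.X P ω (c (n - 1)), (Vj ω, La ω))) := by
    rw [hVj, hLa]
    exact h
  have h1 := CH_le_add hq.nonneg (fun ω => F.X Q ω (c (n - 1)))
    (fun ω => F.X (p + U * z) ω (c (n - 1))) (fun ω => (F.X P ω (c (n - 1)), (Vj ω, La ω)))
  have h2 := X_few hq (k := p + U * z) (k' := Q) (d := d) hQ (c (n - 1))
    (y := fun ω => (F.X (p + U * z) ω (c (n - 1)), (F.X P ω (c (n - 1)), (Vj ω, La ω))))
    (fun ω ω' _ _ e => (Prod.ext_iff.1 e).1)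
  have h3 : CH q (fun ω => F.X (p + U * z) ω (c (n - 1)))
      (fun ω => (F.X P ω (c (n - 1)), (Vj ω, La ω))) ≤
      CH q (fun ω => F.X (p + U * z) ω (c (n - 1)))
      (fun ω => (F.X p ω (c (n - 1)), (Vj ω, La ω))) := by
    refine CH_mono_cond hq.nonneg fun ω ω' _ _ e => ?_
    have e1 := Prod.ext_iff.1 e
    exact Prod.ext (X_det F hP (c (n - 1)) e1.1) e1.2
  have h4 : CH q (fun ω => ⌊(2 : ℝ) ^ (p + U * z) * (D.nd c n sh w₀ z M g ρ).X ω n⌋)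
        (fun ω => (⌊(2 : ℝ) ^ p * (D.nd c n sh w₀ z M g ρ).X ω n⌋,
          (MIC6.vj (D.nd c n sh w₀ z M g ρ) n Jd ω,
            ((D.nd c n sh w₀ z M g ρ).c i j ω, (D.nd c n sh w₀ z M g ρ).T ω)))) =
      CH q (fun ω => F.X (p + U * z) ω (c (n - 1)))
      (fun ω => (F.X p ω (c (n - 1)), (Vj ω, La ω))) := by
    rw [hVj, hLa]
    have e1 : ∀ (k : ℕ) (ω : F.Ω), ⌊(2 : ℝ) ^ k * (D.nd c n sh w₀ z M g ρ).X ω n⌋ =
        F.X k ω (c (n - 1)) := fun k ω => X_eq hn k ω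
    have e2 : ∀ ω : F.Ω, MIC6.vj (D.nd c n sh w₀ z M g ρ) n Jd ω =
        fun (l : Fin (n - 1)) => F.X Jd ω (c l) := by
      intro ω
      funext l
      show ⌊(2 : ℝ) ^ Jd * (if (l : ℕ) + 1 = 0 then F.t ω else F.x ω (c (l + 1 - 1)))⌋ = _
      rw [if_neg (by omega), Nat.add_sub_cancel]
      rfl
    simp only [e1, e2]
    rfl
  rw [h4]
  linarith

/-! ### The number of the digits of the base -/

theorem flo_y {y : ℝ} (hy1 : y ≤ 1) (J : ℕ) : J ≤ ⌊(1 - y) * J⌋₊ + (⌊y * J⌋₊ + 1) := by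
  have h1 : (1 - y) * J < ⌊(1 - y) * J⌋₊ + 1 := Nat.lt_floor_add_one _
  have h2 : y * J < ⌊y * J⌋₊ + 1 := Nat.lt_floor_add_one _
  have h3 : (J : ℝ) < ((⌊(1 - y) * J⌋₊ + (⌊y * J⌋₊ + 1) + 1 : ℕ) : ℝ) := by
    push_cast
    linarith
  have h4 : J < ⌊(1 - y) * J⌋₊ + (⌊y * J⌋₊ + 1) + 1 := by exact_mod_cast h3
  omega

theorem sizYd_ev {n M B : ℕ} (hB : 1 ≤ B) {ζ y : ℝ} (hζ : 0 < ζ) (hy1 : y ≤ 1)
    {e : ℕ → ℕ → ℝ} {b : ℕ → ℕ → ℕ → ℝ} (he : ∀ i ≤ M, ∀ j ≤ M, 0 ≤ e i j)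
    (hb : ∀ i ≤ M, ∀ j ≤ M, ∀ l < n, 0 < b i j l)
    (h : ∀ i ≤ M, ∀ j ≤ M, ∀ l < n, b i j l + e i j + (B * M + 1) * ζ < y) (s₂ : ℕ) :
    ∃ J₁ : ℕ, ∀ J ≥ J₁, SizY n ⌊y * J⌋₊ (B * (M * up ζ J)) M s₂ (fun i j => ⌊e i j * J⌋₊)
      (fun i j l => ⌊b i j l * J⌋₊) := by
  obtain ⟨J₁, h1⟩ := sizY_ev hB hζ (e := fun i j => e i j + (1 - y)) (fun i hi j hj => by
    have := he i hi j hj
    linarith) hb (fun i hi j hj l hl => by
    have := h i hi j hj l hl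
    linarith) (s₂ + 1)
  refine ⟨J₁, fun J hJ i hi j hj l hl => ?_⟩
  have h2 := h1 J hJ i hi j hj l hl
  have h3 := flo_y hy1 J
  have h4 : ⌊e i j * J⌋₊ + ⌊(1 - y) * J⌋₊ ≤ ⌊(e i j + (1 - y)) * J⌋₊ := by
    refine Nat.le_floor ?_
    have h5 := he i hi j hj
    have hJ0 : (0 : ℝ) ≤ J := Nat.cast_nonneg J
    have a1 : (⌊e i j * J⌋₊ : ℝ) ≤ e i j * J := Nat.floor_le (by positivity)
    have a2 : (⌊(1 - y) * J⌋₊ : ℝ) ≤ (1 - y) * J :=
      Nat.floor_le (mul_nonneg (by linarith) hJ0)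
    push_cast
    linarith
  beta_reduce at h2 ⊢
  omega

theorem gridd_ev {α ϖ ζ y : ℝ} {M : ℕ} (hϖ : 0 ≤ ϖ) (hζ : 0 < ζ)
    (hthin : ϖ + (M + 1) * ζ < α) (hy1 : y ≤ 1) (htop : α + (M + 1) * ζ < y) :
    ∃ J₁ : ℕ, ∀ J ≥ J₁, up α J + M * up ζ J ≤ ⌊y * J⌋₊ := by
  obtain ⟨J₁, h1⟩ := grid_ev (α := α + (1 - y)) hϖ hζ (by linarith) (by linarith)
  refine ⟨J₁, fun J hJ => ?_⟩
  obtain ⟨-, h2, h3⟩ := h1 J hJ
  have h4 := flo_y hy1 J
  have h5 : up α J + ⌊(1 - y) * J⌋₊ ≤ up (α + (1 - y)) J := by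
    have hJ0 : (0 : ℝ) ≤ J := Nat.cast_nonneg J
    have a2 : (⌊(1 - y) * J⌋₊ : ℝ) ≤ (1 - y) * J :=
      Nat.floor_le (mul_nonneg (by linarith) hJ0)
    have a3 := up_ge (α + (1 - y)) J
    have a4 : up α J ≤ up (α + (1 - y)) J - ⌊(1 - y) * J⌋₊ := by
      refine Nat.ceil_le.2 ?_
      have a5 : ((up (α + (1 - y)) J : ℕ) : ℝ) ≤
          ((up (α + (1 - y)) J - ⌊(1 - y) * J⌋₊ : ℕ) : ℝ) + ⌊(1 - y) * J⌋₊ := by
        exact_mod_cast le_tsub_add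
      linarith
    have a6 : ⌊(1 - y) * J⌋₊ ≤ up (α + (1 - y)) J := by
      have a7 : (⌊(1 - y) * J⌋₊ : ℝ) ≤ up (α + (1 - y)) J := by
        have hα : 0 ≤ α := by
          have : (0 : ℝ) ≤ (M + 1) * ζ := by positivity
          linarith
        have a8 : 0 ≤ α * J := mul_nonneg hα hJ0
        linarith
      exact_mod_cast a7
    omega
  have h6 : (M + 1) * up ζ J = M * up ζ J + up ζ J := by ring
  omega

/-- **The rows given the closed context, for a class**, from the rates at the places of the grid. -/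
theorem nfc_fld (n K K' s₁ : ℕ) (sh : ℕ → ℕ) (hn : 1 ≤ n) (hK' : 1 ≤ K') {S : PCl m}
    {W : GrdP m} {M B : ℕ} (hB : 1 ≤ B) {c : ℕ → Fin m} {α ϖ ζ : ℝ} {e : ℕ → ℕ → ℝ}
    {b : ℕ → ℕ → ℕ → ℝ} {R : (J : ℕ) → (F : Fam m J) → GDat F → ℕ → ℕ → Type}
    {ρ : (J : ℕ) → (F : Fam m J) → (D : GDat F) → (i j : ℕ) → LnT F → R J F D i j}
    {x y : ℝ} (hx : 0 ≤ x) (hϖ : 0 ≤ ϖ) (hζ : 0 < ζ) (hthin : ϖ + (M + 1) * ζ < α)
    (hy1 : y ≤ 1) (htop : α + (M + 1) * ζ < y) (hc : Inj c n)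
    (he : ∀ i ≤ M, ∀ j ≤ M, 0 ≤ e i j) (hb : ∀ i ≤ M, ∀ j ≤ M, ∀ l < n, 0 < b i j l)
    (hsz : ∀ i ≤ M, ∀ j ≤ M, ∀ l < n, b i j l + e i j + (B * M + 1) * ζ < y)
    (hpos : ∀ (τ : ℝ) (J : ℕ) (F : Fam m J) (A : F.Ω → Prop), S.St τ J F A → 0 < Pe F.p A)
    (hrate : ∀ i, 1 ≤ i → i ≤ M → ∀ j ≤ M, ∀ R₁ R₂ : ℝ,
      b i j (n - 1) + ζ ≤ R₁ → R₁ ≤ R₂ → R₂ ≤ b i j (n - 1) + M * ζ → ∀ ε : ℝ, 0 < ε →
      FldV S W c n K K' s₁ sh α ϖ ζ M e b
        (fun J F D q => RtP D c n (ρ J F D) (up ϖ J) (up ζ J) i j ⌊y * J⌋₊ ⌊R₁ * J⌋₊ ⌊R₂ * J⌋₊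
          (((1 - x) * (R₂ - R₁) - ε) * Real.log 2 * J) q))
    {C₁ : ℝ} (hC₁ : 4 ≤ C₁) :
    FldV S W c n K K' s₁ sh α ϖ ζ M e b (fun J F D q => ∀ gam : ℕ → ℝ,
      NFc1 (D.nd c n sh (up ϖ J) (up ζ J) M (fun i j l => ⌊b i j l * J⌋₊) (ρ J F D)) n (up ζ J) M B
        gam x C₁ q) := by
  classical
  obtain ⟨L, s₂, hL, hfam⟩ := nrn_fam n K K' s₁ sh hK'
  obtain ⟨J₀, hgridd⟩ := gridd_ev (M := M) hϖ hζ hthin hy1 htop
  obtain ⟨J₁, hgrid⟩ := grid_ev hϖ hζ hthin (htop.trans_le hy1)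
  obtain ⟨J₂, hflo⟩ := flo_ev hb sh
  obtain ⟨J₃, hsi⟩ := sizYd_ev hB hζ hy1 he hb hsz s₂
  have hl2 : 0 < Real.log 2 := Real.log_pos one_lt_two
  have hl21 : Real.log 2 ≤ 1 := by
    have := Real.log_two_lt_d9
    linarith
  -- the constants
  obtain ⟨Cs, hCs⟩ : ∃ Cs : ℝ, Cs = (M : ℝ) + Real.log (5 * 2 ^ (sh n + 1)) +
    (n + 1) * Real.log (5 + 2 * L) := ⟨_, rfl⟩
  obtain ⟨J₄, hJ₄⟩ := kz_ev one_pos hζ Cs
  have hMr : (0 : ℝ) ≤ M := Nat.cast_nonneg M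
  -- the rates, all places
  have hR : FldV S W c n K K' s₁ sh α ϖ ζ M e b (fun J F D q => ∀ a : Fin (M + 1) × Fin (M + 1) ×
      Fin (M + 1), 1 ≤ (a.1 : ℕ) → 1 ≤ (a.2.2 : ℕ) →
      RtP D c n (ρ J F D) (up ϖ J) (up ζ J) a.1 a.2.1 ⌊y * J⌋₊
        ⌊(b a.1 a.2.1 (n - 1) + ζ) * J⌋₊ ⌊(b a.1 a.2.1 (n - 1) + (a.2.2 : ℕ) * ζ) * J⌋₊
        (((1 - x) * ((b a.1 a.2.1 (n - 1) + (a.2.2 : ℕ) * ζ) - (b a.1 a.2.1 (n - 1) + ζ)) -
          ζ) * Real.log 2 * J) q) := by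
    have key : ∀ a : Fin (M + 1) × Fin (M + 1) × Fin (M + 1),
        Bas S (fun J F A => ∀ D : GDat F, D.Ok c n K K' s₁ sh (up α J) (up ϖ J) (up ζ J) M
          (fun i j => ⌊e i j * J⌋₊) (fun i j l => ⌊b i j l * J⌋₊) A → W J F D A →
          1 ≤ (a.1 : ℕ) → 1 ≤ (a.2.2 : ℕ) →
          RtP D c n (ρ J F D) (up ϖ J) (up ζ J) a.1 a.2.1 ⌊y * J⌋₊
            ⌊(b a.1 a.2.1 (n - 1) + ζ) * J⌋₊ ⌊(b a.1 a.2.1 (n - 1) + (a.2.2 : ℕ) * ζ) * J⌋₊
            (((1 - x) * ((b a.1 a.2.1 (n - 1) + (a.2.2 : ℕ) * ζ) - (b a.1 a.2.1 (n - 1) + ζ)) -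
              ζ) * Real.log 2 * J) (Pool.Agent.H49.Ent.cond F.p A True)) := by
      rintro ⟨i, j, U⟩
      by_cases hh : 1 ≤ (i : ℕ) ∧ 1 ≤ (U : ℕ)
      · obtain ⟨h1, h3⟩ := hh
        have h6 : ((U : ℕ) : ℝ) ≤ M := by
          have h7 : (U : ℕ) ≤ M := by omega
          exact_mod_cast h7
        have h8 : ((U : ℕ) : ℝ) * ζ ≤ M * ζ := mul_le_mul_of_nonneg_right h6 hζ.le
        have h9 : (1 : ℝ) ≤ (U : ℕ) := by exact_mod_cast h3
        have h10 : ζ ≤ ((U : ℕ) : ℝ) * ζ := le_mul_of_one_le_left hζ.le h9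
        have h11 := hrate i h1 (by omega) j (by omega) (b i j (n - 1) + ζ)
          (b i j (n - 1) + (U : ℕ) * ζ) le_rfl (by linarith) (by linarith) ζ hζ
        exact Bas.mono 0 h11 fun _ _ _ _ h12 D hD hX _ _ => h12 D hD hX
      · refine ⟨1, one_pos, 0, fun J _ F A _ D _ _ h1 h3 => absurd ⟨h1, h3⟩ hh⟩
    exact Bas.mono 0 (Bas.fin key) fun _ _ _ _ h1 D hD hX a a1 a3 => h1 a D hD hX a1 a3
  have hP : Bas S (fun _ F A => 0 < Pe F.p A) := ⟨1, one_pos, 0, fun J _ F A hA => hpos 1 J F A hA⟩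
  refine Bas.mono (max J₀ (max (max J₁ J₂) (max J₃ J₄))) (Bas.and hP hR) fun J hJ F A hA D hD hX gam => ?_
  obtain ⟨f1, f2⟩ := hA
  have f2 := f2 D hD hX
  beta_reduce at f2
  have j0 : J₀ ≤ J := (le_max_left _ _).trans hJ
  replace hJ := (le_max_right J₀ _).trans hJ
  have j1 : J₁ ≤ J := ((le_max_left _ _).trans (le_max_left _ _)).trans hJ
  have j2 : J₂ ≤ J := ((le_max_right _ _).trans (le_max_left _ _)).trans hJ
  have j3 : J₃ ≤ J := ((le_max_left _ _).trans (le_max_right _ _)).trans hJ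
  have j4 : J₄ ≤ J := ((le_max_right _ _).trans (le_max_right _ _)).trans hJ
  obtain ⟨g1, g2, g3⟩ := hgrid J j1
  obtain ⟨z, hz⟩ : ∃ z, z = up ζ J := ⟨_, rfl⟩
  have hz0 : ζ * J ≤ z := by rw [hz]; exact up_ge ζ J
  have hz1 : (z : ℝ) ≤ ζ * J + 1 := by rw [hz]; exact up_le hζ.le J
  have hCz : Cs ≤ 1 * z := by rw [hz]; exact hJ₄ J j4
  have hJ0 : (0 : ℝ) ≤ J := Nat.cast_nonneg J
  rw [← hz] at f2 ⊢
  have hq := isLaw_cond F.isLaw f1
  have hnr := hfam (ρ := ρ J F D) (Y := B * (M * z)) hD hc (hgridd J j0)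
    (fun i hi j hj l hl => hflo J j2 i hi j hj l hl) (by
      rw [hz]
      exact hsi J j3) (q := Pool.Agent.H49.Ent.cond F.p A True)
    (fun ω hω => Pool.PB.End.of_cond_pos hω)
  rw [← hz] at hnr
  have hlog : 0 ≤ Real.log (5 + 2 * L) := Real.log_nonneg (by linarith)
  have hlog2 : 0 ≤ Real.log (5 * 2 ^ (sh n + 1)) := by
    refine Real.log_nonneg ?_
    have : (1 : ℝ) ≤ 2 ^ (sh n + 1) := one_le_pow₀ one_le_two
    linarith
  refine nfc_of (k := (C₁ * z - (n + 1) * Real.log (5 + 2 * L)) / z) hn hq (by linarith) hnr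
    (Nat.le_mul_of_pos_left _ hB) le_rfl (fun i hi j hj => ?_) ?_ ?_
  · intro ω ω' hω hω' e1
    have h1 := (hD.cnd hK' (ρ J F D)).s_c i hi j hj ω ω' (Pool.PB.End.of_cond_pos hω)
      (Pool.PB.End.of_cond_pos hω') (by
        rw [← hz]
        exact (Prod.ext_iff.1 e1).1) (Prod.ext_iff.1 e1).2
    exact h1
  · intro i hi1 hi j hj U hU _
    have hz00 : 0 < (z : ℝ) := by
      have : 1 ≤ z := by rw [hz]; exact g3
      exact_mod_cast this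
    rw [div_mul_cancel₀ _ hz00.ne']
    rcases Nat.eq_zero_or_pos U with hU0 | hU1
    · subst hU0
      refine le_trans ?_ (CH_nonneg hq.nonneg _ _)
      rw [Nat.cast_zero, zero_mul, mul_zero, zero_mul]
      have h1 : 4 * (z : ℝ) ≤ C₁ * z := mul_le_mul_of_nonneg_right hC₁ hz00.le
      rw [hCs] at hCz
      linarith
    · have h1 := f2 (⟨i, by omega⟩, ⟨j, by omega⟩, ⟨U, by omega⟩) hi1 hU1
      simp only at h1
      have hbi := (hb i hi j hj (n - 1) (by omega)).le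
      have hUr : (1 : ℝ) ≤ U := by exact_mod_cast hU1
      have hfl := hflo J j2 i hi j hj (n - 1) (by omega)
      rw [Nat.sub_add_cancel hn] at hfl
      have h2 := rtn_of (M := M) (sh := sh) (U := U) (g := fun i j l => ⌊b i j l * J⌋₊) (d := sh n + 1) hn hq (by
        have h3 : ⌊b i j (n - 1) * J⌋₊ ≤ ⌊(b i j (n - 1) + ζ) * J⌋₊ :=
          Nat.floor_le_floor (mul_le_mul_of_nonneg_right (by linarith) hJ0)
        show ⌊b i j (n - 1) * J⌋₊ - sh n ≤ _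
        omega) (by
        show _ ≤ ⌊b i j (n - 1) * J⌋₊ - sh n + U * z + (sh n + 1)
        have h3 : ⌊(b i j (n - 1) + U * ζ) * J⌋₊ ≤ ⌊b i j (n - 1) * J⌋₊ + 1 + U * z := by
          refine Nat.floor_le_of_le ?_
          push_cast
          have h4 : b i j (n - 1) * J < ⌊b i j (n - 1) * J⌋₊ + 1 := Nat.lt_floor_add_one _
          have h5 : (U : ℝ) * (ζ * J) ≤ U * z := mul_le_mul_of_nonneg_left hz0 (by linarith)
          nlinarith
        omega) h1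
      refine le_trans ?_ h2
      have e1 : (b i j (n - 1) + (U : ℝ) * ζ) - (b i j (n - 1) + ζ) = (U - 1) * ζ := by ring
      rw [e1]
      rw [hCs] at hCz
      have h5 : 4 * (z : ℝ) ≤ C₁ * z := mul_le_mul_of_nonneg_right hC₁ hz00.le
      have hUM : (U : ℝ) ≤ M := by
        have : U ≤ M := by omega
        exact_mod_cast this
      -- main inequality
      rcases le_total 1 x with hx1 | hx1
      · -- the rate is trivial
        have h6 : (1 - x) * (U * z) * Real.log 2 ≤ 0 := by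
          have : (1 - x) * ((U : ℝ) * z) ≤ 0 :=
            mul_nonpos_of_nonpos_of_nonneg (by linarith) (by positivity)
          exact mul_nonpos_of_nonpos_of_nonneg this hl2.le
        have h7 : (1 - x) * (U * z) ≤ (1 - x) * ((U - 1) * ζ) * J := by
          have a1 : ((U : ℝ) - 1) * (ζ * J) ≤ U * z := by
            have : ((U : ℝ) - 1) * (ζ * J) ≤ (U - 1) * z :=
              mul_le_mul_of_nonneg_left hz0 (by linarith)
            nlinarith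
          have a2 : (1 - x) * (U * z) ≤ (1 - x) * ((U - 1) * (ζ * J)) :=
            mul_le_mul_of_nonpos_left a1 (by linarith)
          linarith
        have h8 : (1 - x) * (U * z) * Real.log 2 ≤ (1 - x) * ((U - 1) * ζ) * J * Real.log 2 :=
          mul_le_mul_of_nonneg_right h7 hl2.le
        have h9 : ζ * J * Real.log 2 ≤ z := by
          calc ζ * J * Real.log 2 ≤ z * Real.log 2 := mul_le_mul_of_nonneg_right hz0 hl2.le
            _ ≤ z * 1 := mul_le_mul_of_nonneg_left hl21 hz00.le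
            _ = z := mul_one _
        nlinarith
      · have h7 : (1 - x) * (U * z) - 2 * z - M ≤ (1 - x) * ((U - 1) * ζ) * J - ζ * J + z := by
          have a1 : (U : ℝ) * z - z - U ≤ (U - 1) * (ζ * J) := by
            have : ((U : ℝ) - 1) * (z - 1) ≤ (U - 1) * (ζ * J) :=
              mul_le_mul_of_nonneg_left (by linarith) (by linarith)
            nlinarith
          have a2 : (1 - x) * ((U : ℝ) * z - z - U) ≤ (1 - x) * ((U - 1) * (ζ * J)) :=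
            mul_le_mul_of_nonneg_left a1 (by linarith)
          have a3 : (1 - x) * (z : ℝ) ≤ z := by nlinarith
          have a4 : (1 - x) * (U : ℝ) ≤ M := by nlinarith
          nlinarith
        have h8 := mul_le_mul_of_nonneg_right h7 hl2.le
        have h9 : (3 * (z : ℝ) + M) * Real.log 2 ≤ 3 * z + M := by
          calc (3 * (z : ℝ) + M) * Real.log 2 ≤ (3 * z + M) * 1 :=
              mul_le_mul_of_nonneg_left hl21 (by positivity)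
            _ = _ := mul_one _
        nlinarith
  · have hz00 : 0 < (z : ℝ) := by
      have : 1 ≤ z := by rw [hz]; exact g3
      exact_mod_cast this
    rw [div_mul_cancel₀ _ hz00.ne']
    linarith

end Pool.NFC65
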