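import Pool.Agent.H65.NFC.Zom

/-!
# The rows of the target given the closed context, for the cells of a kit

`ZmP`: in the subclasses with one datum the rate of the target given the context of a place of the
grid is at least `1 - x` behind the level of the target at the place. `hnfc_zoom`: the hypothesis
`hnfc` of `ext_P` (helper78). `ZmG`: the zooms of the places of a grid; `ZmG.zmP`: they give `ZmP`.
-/

set_option autoImplicit false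

namespace Pool.NFC65

open Finset MvPolynomial
open Pool.Agent.H49.Ent Pool.Agent.H32.Dense Pool.STK Pool.KS3 Pool.STAT Pool.STAT.CLO Pool.MIC6
open Pool.KA Pool.KSAT Pool.PB Pool.GEN Pool.K2S Pool.S6C
open Pool.REX Pool.REX83 Pool.FRX
open Pool.P4 (NFc1)

variable {Θ : Type*} {I : ℝ → Θ → Prop} {m n₀ k : ℕ}

/-- **The rates at the places of a grid**: in every nonempty subclass with one datum of the grid
there is a nonempty subclass in which the rate of the target given the context of the place is at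
least `1 - x` for the digits behind the level of the target at the place (the base is given to
`(1 - ζ) J` digits, `ζ` the mesh). -/
def ZmP (Kt : KitP m Θ n₀) (S : PCl m) (K' s₁ : ℕ) (sh : ℕ → ℕ) (x : ℝ) (M N : ℕ) (θ : ℝ)
    (p : Θ) : Prop :=
  ∀ (b : ℕ → ℕ → ℕ → ℝ) (e : ℕ → ℕ → ℝ), Kt.Near p N M θ b e →
    ∀ i, 1 ≤ i → i ≤ M → ∀ j ≤ M, ∀ S' : PCl m, S'.Ne →
    (∀ (τ : ℝ) (J : ℕ) (F : Fam m J) (A : F.Ω → Prop), S'.St τ J F A → S.St τ J F A) →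
    ∀ d : ∀ (J : ℕ) (F : Fam m J), GDat F,
    (∀ (τ : ℝ) (J : ℕ) (F : Fam m J) (A : F.Ω → Prop), S'.St τ J F A →
      (Kt.grid K' s₁ sh p N M θ b e).Ok F (d J F) A) →
    ∃ S'' : PCl m, S''.Ne ∧ (∀ (τ : ℝ) (J : ℕ) (F : Fam m J) (A : F.Ω → Prop),
      S''.St τ J F A → S'.St τ J F A) ∧
      RtY S'' (Kt.cs p) (n₀ + 1) x (1 - msh (Kt.X p) N M)
        (Kt.L p n₀ ((Kt.y p).1 + (Kt.y p).2 + i * msh (Kt.X p) N M)
          ((Kt.y p).1 + j * msh (Kt.X p) N M) + (M + 1) * msh (Kt.X p) N M)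
        (Kt.L p n₀ ((Kt.y p).1 + (Kt.y p).2 + i * msh (Kt.X p) N M)
          ((Kt.y p).1 + j * msh (Kt.X p) N M) + msh (Kt.X p) N M / 2)
        (fun J F ω => ((d J F).cd (n₀ + 1) (Kt.rc p N M θ J F (d J F))).lab2 (up (Kt.y p).1 J)
          (up (msh (Kt.X p) N M) J) i j ω)

/-- **The zooms of the places of a grid**: `ZmP` with a zoom in which the target is the last
coordinate of a greedy order. -/
def ZmG (Kt : KitP m Θ n₀) (S : PCl m) (K' s₁ : ℕ) (sh : ℕ → ℕ) (k M N : ℕ) (θ : ℝ)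
    (p : Θ) : Prop :=
  ∀ (b : ℕ → ℕ → ℕ → ℝ) (e : ℕ → ℕ → ℝ), Kt.Near p N M θ b e →
    ∀ i, 1 ≤ i → i ≤ M → ∀ j ≤ M, ∀ S' : PCl m, S'.Ne →
    (∀ (τ : ℝ) (J : ℕ) (F : Fam m J) (A : F.Ω → Prop), S'.St τ J F A → S.St τ J F A) →
    ∀ d : ∀ (J : ℕ) (F : Fam m J), GDat F,
    (∀ (τ : ℝ) (J : ℕ) (F : Fam m J) (A : F.Ω → Prop), S'.St τ J F A →
      (Kt.grid K' s₁ sh p N M θ b e).Ok F (d J F) A) →
    ∃ S'' : PCl m, S''.Ne ∧ (∀ (τ : ℝ) (J : ℕ) (F : Fam m J) (A : F.Ω → Prop),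
      S''.St τ J F A → S'.St τ J F A) ∧
      ZmN S'' k (Kt.cs p) (n₀ + 1)
        (Kt.L p n₀ ((Kt.y p).1 + (Kt.y p).2 + i * msh (Kt.X p) N M)
          ((Kt.y p).1 + j * msh (Kt.X p) N M) + msh (Kt.X p) N M / 2)
        (fun J F ω => ((d J F).cd (n₀ + 1) (Kt.rc p N M θ J F (d J F))).lab2 (up (Kt.y p).1 J)
          (up (msh (Kt.X p) N M) J) i j ω)

/-- **The rates from the zooms.** -/
theorem ZmG.zmP {Kt : KitP m Θ n₀} {S : PCl m} {K' s₁ : ℕ} {sh : ℕ → ℕ} {M N : ℕ} {θ : ℝ}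
    {p : Θ} (hN : 1 ≤ N) (hθ : θ ≤ 1) (hX : 0 ≤ Kt.X p) {C₀ : ℝ} (hC₀ : 0 ≤ C₀)
    (htm : TmC S C₀) {x : ℝ} (hF : FZQ k x)
    (h : ZmG Kt S K' s₁ sh k M N θ p) : ZmP Kt S K' s₁ sh x M N θ p := by
  intro b e hb i hi1 hi j hj S' hne hsub d hd
  obtain ⟨S'', hne'', hsub'', hZ⟩ := h b e hb i hi1 hi j hj S' hne hsub d hd
  refine ⟨S'', hne'', hsub'', (hZ.rate hne'' hC₀
    (fun τ J F A hτ h => htm τ J F A hτ (hsub τ J F A (hsub'' τ J F A h))) hF).mono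
      (sub_le_self 1 (by unfold msh; positivity)) le_rfl ?_⟩
  have h1 := hb.lo i hi j hj n₀ (by omega)
  have h2 := hb.e1 i hi j hj n₀ (by omega)
  have h3 := hb.e0 i hi j hj
  have h4 : (N : ℝ) * ((M + 4) * msh (Kt.X p) N M) = Kt.X p := msh_mul hN
  have hm : 0 ≤ msh (Kt.X p) N M := by
    unfold msh
    positivity
  have h5 : (1 : ℝ) ≤ N := by exact_mod_cast hN
  have hM0 : (0 : ℝ) ≤ M := Nat.cast_nonneg M
  have h6 : (1 : ℝ) * ((M + 4) * msh (Kt.X p) N M) ≤ N * ((M + 4) * msh (Kt.X p) N M) :=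
    mul_le_mul_of_nonneg_right h5 (by positivity)
  have h7 : θ * msh (Kt.X p) N M ≤ 1 * msh (Kt.X p) N M := mul_le_mul_of_nonneg_right hθ hm
  nlinarith

/-- **The hypothesis `hnfc` of `ext_P`.** -/
theorem hnfc_zoom (hI : MonoI I) {S : PCl m}
    (hpos : ∀ (τ : ℝ) (J : ℕ) (F : Fam m J) (A : F.Ω → Prop), S.St τ J F A → 0 < Pe F.p A)
    (Kt : KitP m Θ n₀) (hinj : ∀ p, Inj (Kt.cs p) (n₀ + 1)) {T' : ℝ}
    (fcel : ∀ ε' : ℝ, 0 < ε' → EvP I fun p =>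
      CellL (n₀ + 1) (Kt.L p) ε' T' (Kt.y p) (Kt.X p) (Kt.la p) (Kt.ml p))
    {K' s₁ : ℕ} {sh : ℕ → ℕ} (hK' : 1 ≤ K') {PB : ℕ → Prop} {x : ℝ} (hx : 0 ≤ x)
    (hz : ∀ M : ℕ, EvQ I fun N θ p => ZmP Kt S K' s₁ sh x M N θ p) :
    ∃ C₄ : ℝ, ∀ C₁ ≥ C₄, ∀ B : ℕ, 1 ≤ B → PB B → ∀ M : ℕ, EvQ I fun N θ p =>
      Kt.FldN S K' s₁ sh M N θ p fun G J F D q => ∀ gam' : ℕ → ℝ, 0 ≤ gam' (n₀ + 1) →
        |gamS (n₀ + 1) (Kt.la p) (Kt.ml p) (n₀ + 1) - gam' (n₀ + 1)| * M ≤ 1 →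
        NFc1 (Kt.nd p N M θ G F D) G.n (up G.ζ J) G.M B gam' x C₁ q := by
  refine ⟨4, fun C₁ hC₁ B hB _ M => ?_⟩
  obtain ⟨N₁, hN₁⟩ := exists_nat_ge (4 * (T' + 2))
  have key := ((KitP.cel_evQ fcel M).and hI (hz M)).and hI
    (EvQ.self I (max N₁ (B + 1)) (θ₀ := 1 / 16) (by norm_num)
      (ε := fun N _ => 1) (fun N _ _ => one_pos))
  refine key.mono ?_
  rintro N θ p ⟨⟨hL, hzp⟩, hN, hθ, hθ1, -⟩ b e hnear
  obtain ⟨ε, hε⟩ : ∃ ε : ℝ, ε = 1 / (64 * (N * (M + 4)) + 1) := ⟨_, rfl⟩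
  rw [← hε] at hL
  have hNN : N₁ ≤ N := (le_max_left _ _).trans hN
  have hNB : B + 1 ≤ N := (le_max_right _ _).trans hN
  have hN1 : 1 ≤ N := by omega
  have hNT : 4 * (T' + 2) ≤ N := hN₁.trans (by exact_mod_cast hNN)
  have hε0 : 0 < ε := by rw [hε]; positivity
  have hεN : ε * (64 * (N * (M + 4))) ≤ 1 := by
    rw [hε, one_div, inv_mul_le_iff₀ (by positivity)]
    linarith
  have hn1 : 1 ≤ n₀ + 1 := by omega
  have hs := hL.sideE (B := B) hn1 hN1 hNT hNB hB hε0.le hεN hθ hθ1 hnear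
  have hz0 := hs.ζ0
  have hX := hL.pos
  have eX : N * ((M + 4) * msh (Kt.X p) N M) = Kt.X p := msh_mul hN1
  have hM0 : (0 : ℝ) ≤ M := Nat.cast_nonneg M
  have hB0 : (0 : ℝ) ≤ B := Nat.cast_nonneg B
  have hNB' : (B : ℝ) + 1 ≤ N := by exact_mod_cast hNB
  have hXz : (B + 1) * ((M + 4) * msh (Kt.X p) N M) ≤ Kt.X p :=
    (mul_le_mul_of_nonneg_right hNB' (by positivity)).trans eX.le
  have hBz : 0 ≤ B * msh (Kt.X p) N M := by positivity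
  have hMz : 0 ≤ M * msh (Kt.X p) N M := by positivity
  have hBMz : 0 ≤ B * (M * msh (Kt.X p) N M) := by positivity
  have htop : (Kt.y p).1 + (Kt.y p).2 + (M + 1) * msh (Kt.X p) N M < 1 - msh (Kt.X p) N M := by
    have h1 := hL.top
    nlinarith only [h1, hXz, hBz, hMz, hBMz, hz0, hX]
  have hsz : ∀ i ≤ M, ∀ j ≤ M, ∀ l < n₀ + 1,
      b i j l + e i j + (B * M + 1) * msh (Kt.X p) N M < 1 - msh (Kt.X p) N M := by
    intro i hi j hj l hl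
    have h1 := hnear.e1 i hi j hj l hl
    nlinarith only [h1, hXz, hBz, hMz, hBMz, hz0]
  have hrate : ∀ i, 1 ≤ i → i ≤ M → ∀ j ≤ M, ∀ R₁ R₂ : ℝ,
      b i j (n₀ + 1 - 1) + msh (Kt.X p) N M ≤ R₁ → R₁ ≤ R₂ →
      R₂ ≤ b i j (n₀ + 1 - 1) + M * msh (Kt.X p) N M → ∀ ε : ℝ, 0 < ε →
      FldV S (Kt.W p N M θ) (Kt.cs p) (n₀ + 1) Kt.K K' s₁ sh ((Kt.y p).1 + (Kt.y p).2) (Kt.y p).1
        (msh (Kt.X p) N M) M e b
        (fun J F D q => RtP D (Kt.cs p) (n₀ + 1) (Kt.rc p N M θ J F D) (up (Kt.y p).1 J)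
          (up (msh (Kt.X p) N M) J) i j ⌊(1 - msh (Kt.X p) N M) * J⌋₊ ⌊R₁ * J⌋₊ ⌊R₂ * J⌋₊
          (((1 - x) * (R₂ - R₁) - ε) * Real.log 2 * J) q) := by
    intro i hi1 hi j hj R₁ R₂ h1 h12 h2 ε' hε'
    have h3 := hnear.lo i hi j hj n₀ (by omega)
    have h5 := hnear.up i hi j hj n₀ (by omega)
    have h4 : θ * msh (Kt.X p) N M ≤ 1 / 16 * msh (Kt.X p) N M :=
      mul_le_mul_of_nonneg_right hθ1 hz0.le
    rw [Nat.add_sub_cancel] at h1 h2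
    exact rate_zoom (n₀ + 1) Kt.K K' s₁ sh hpos (Kt.her p N M θ) (ρ := fun J F D =>
      Kt.rc p N M θ J F D) (fun S' hne hsub d hd => hzp b e hnear i hi1 hi j hj S'
        hne hsub d hd) le_rfl (by linarith) h12 (by linarith) hε'
  have hfld := nfc_fld (n₀ + 1) Kt.K K' s₁ sh hn1 hK' (S := S) (W := Kt.W p N M θ) (M := M)
    (B := B) hB (c := Kt.cs p) (ρ := fun J F D => Kt.rc p N M θ J F D) hx hs.win hz0 hs.thin
    (sub_le_self 1 hz0.le) htop (hinj p) hnear.e0 hs.pos hsz hpos hrate hC₁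
  exact FldW.iff_v.2 (Bas.mono 0 hfld fun J _ F A h D hD hX gam' _ _ => h D hD hX gam')

end Pool.NFC65
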