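import Pool.Agent.H14.P4.P4
import Pool.Agent.H65.NFC.Red

/-!
# P4 with one closed context

`p4_1`: the local theorem `P4Stmt1`.
-/

set_option autoImplicit false

namespace Pool.P4

/-- **P4**, one closed context. -/
theorem p4_1 : P4Stmt1 := by
  intro n B h₀ hn hB hh₀
  obtain ⟨δ, hδ, H⟩ := p4x_of (vcellS_of cellF_thm) gfS n B h₀ hn hB hh₀
  refine ⟨δ, hδ, fun K A gam R C₁ h h1 h2 g0 gn gg gs hC => ?_⟩
  exact Pool.NFC65.red3 (Cl := gr gam n) hn hB g0 hC fun C₂ hC₂ CL =>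
    H K A gam R C₂ CL h h1 h2 g0 gn gg gs (hC.trans hC₂)

end Pool.P4
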