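import Pool.Agent.H65.NFC.Kit
import Pool.Agent.H78.MIC.ClsM

/-!
# `NfcI` of a class from the rates at the places

`nfcI_rate`: the closed lower bound `NfcI` (helper78) of the rows of the target on a family of boxes,
from the rates `ZmP` at the places of the grids, for the kit `kitN` of a class. `nfcI_zoom`: the same
from the zooms `ZmG` in which the target is the last coordinate of a greedy order.
-/

set_option autoImplicit false

namespace Pool.NFC65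

open Finset
open Pool.Agent.H49.Ent Pool.Agent.H32.Dense Pool.STK Pool.KA Pool.KSAT Pool.K2S Pool.PB
open Pool.GEN Pool.S6C Pool.STAT Pool.CHT Pool.STA Pool.PKG
open Pool.TOP (TopS)
open Pool.STR (NumI Rle)
open Pool.STAT.CLO Pool.MIC6
open Pool.FRX (FZQ)

variable {n : ℕ} {hn : 2 ≤ n} {S : PCl n} {P : ℝ → ℝ → ℝ} {rr : ℝ → ℝ}
  {P' : ℕ → List (Fin n) × Fin n → ℝ → ℝ → ℝ} {Λ : Finset (Fin n) → Fin n → ℝ → ℝ → ℝ}
  {PB : ℕ → List (Fin n) × Fin n → ℝ → ℝ → ℝ}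
  (H : PkT hn S P rr P' Λ PB) {hTop : TopS n} {hF : FZX (n - 1)}
  {ρ' : ℝ → ℝ} {hρ : Rle rr ρ'}

/-- **The rates at the places of the grids**, on a family of boxes. -/
def ZmI (p : ((H.nk hTop hF).chg hρ H.up).Par) (x : ℝ) (I : ℝ → BS p.cell → Prop) : Prop :=
  ∀ (K K' s₁ : ℕ) (sh : ℕ → ℕ), 1 ≤ K → 1 ≤ K' → ∀ M' : ℕ, EvQ I fun N θ q =>
    ZmP (kitN H p K).kit S K' s₁ sh x M' N θ q

/-- **The zooms of the places of the grids**, on a family of boxes. -/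
def ZmJ (p : ((H.nk hTop hF).chg hρ H.up).Par) (I : ℝ → BS p.cell → Prop) : Prop :=
  ∀ (K K' s₁ : ℕ) (sh : ℕ → ℕ), 1 ≤ K → 1 ≤ K' → ∀ M' : ℕ, EvQ I fun N θ q =>
    ZmG (kitN H p K).kit S K' s₁ sh n M' N θ q

theorem ZmJ.zmI {p : ((H.nk hTop hF).chg hρ H.up).Par}
    (hpI : ∀ c (k : p.α × Od n) Q g ρ, p.Ad' c k Q g ρ → AdI hn S P P' c k.2 g ρ)
    {I : ℝ → BS p.cell → Prop} (hI : MonoI I) {c β hh M : ℝ} (hc : 0 < c) (hβ : 0 < β)
    (hsub : ∀ ε q, I ε q → IsBS p.cell c β hh M ε q) {x : ℝ}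
    (hFq : FZQ n x) (h : ZmJ H p I) : ZmI H p x I := by
  intro K K' s₁ sh hK hK' M'
  obtain ⟨al, g₀, s, d, e, K₀, N, -, -, hcl⟩ := H.cl
  have htm := Pool.GEN.N83.clx_tmc hcl
  have fcel := KitS.cel (Kt := kitN H p K) (M := M) (h := hh) hc hβ (cls_hP H) (cls_hD H)
    (KitS.hlt_of hc (cls_hlt H hpI))
  refine (((KitP.cel_evQ (fun ε' hε' => (fcel ε' hε').sub hsub) M').and hI
    (h K K' s₁ sh hK hK' M')).and hI (EvQ.self I 1 (θ₀ := 1) one_pos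
      (ε := fun N _ => 1) (fun N _ _ => one_pos))).mono ?_
  rintro N θ q ⟨⟨h1, h2⟩, h3, h4, h5, -⟩
  exact h2.zmP h3 h5 h1.pos.le (by positivity) htm hFq

/-- **The closed lower bound of the rows** from the rates at the places. -/
theorem nfcI_rate {p : ((H.nk hTop hF).chg hρ H.up).Par}
    (hpI : ∀ c (k : p.α × Od n) Q g ρ, p.Ad' c k Q g ρ → AdI hn S P P' c k.2 g ρ)
    {I : ℝ → BS p.cell → Prop} (hI : MonoI I) {c β hh M : ℝ} (hc : 0 < c) (hβ : 0 < β)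
    (hsub : ∀ ε q, I ε q → IsBS p.cell c β hh M ε q) {x : ℝ} (hx : 0 ≤ x) (hz : ZmI H p x I) :
    NfcI H p x I := by
  intro K K' s₁ sh hK hK'
  have fcel := KitS.cel (Kt := kitN H p K) (M := M) (h := hh) hc hβ (cls_hP H) (cls_hD H)
    (KitS.hlt_of hc (cls_hlt H hpI))
  obtain ⟨C₄, h4⟩ := hnfc_zoom hI H.tmh.1 (kitN H p K).kit
    (fun q => kit_inj H p K q.k) (fun ε' hε' => (fcel ε' hε').sub hsub) (K' := K') (s₁ := s₁)
    (sh := sh) hK' (PB := fun _ => True) hx (fun M' => hz K K' s₁ sh hK hK' M')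
  exact ⟨C₄, fun C₁ hC₁ M' => h4 C₁ hC₁ (n + 2) (by omega) trivial M'⟩

/-- **The closed lower bound of the rows** from the zooms. -/
theorem nfcI_zoom {p : ((H.nk hTop hF).chg hρ H.up).Par}
    (hpI : ∀ c (k : p.α × Od n) Q g ρ, p.Ad' c k Q g ρ → AdI hn S P P' c k.2 g ρ)
    {I : ℝ → BS p.cell → Prop} (hI : MonoI I) {c β hh M : ℝ} (hc : 0 < c) (hβ : 0 < β)
    (hsub : ∀ ε q, I ε q → IsBS p.cell c β hh M ε q) {x : ℝ} (hx : 0 ≤ x) (hFq : FZQ n x)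
    (hz : ZmJ H p I) : NfcI H p x I :=
  nfcI_rate H hpI hI hc hβ hsub hx (hz.zmI H hpI hI hc hβ hsub hFq)

end Pool.NFC65
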