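import Pool.Agent.H68.STAT.FulG

/-!
# The variation of the labels at the points in cells of `Jd` digits

`near_gd`: `near_gx` (helper68) with `Jd` digits of the coordinates in place of `J`.
-/

set_option autoImplicit false

namespace Pool.STAT

open Finset MvPolynomial
open Pool.Agent.H49.Ent Pool.Agent.H32.Dense Pool.STK Pool.KS3 Pool.KA Pool.KSAT Pool.PB Pool.GEN
open Pool.K2S

namespace CLO

/-- **The variation of the exact label at the point**, coordinates `1, …, r`, `Jd` digits of the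
coordinates (copy of `near_gx` of helper68, which is the case `Jd = J`). -/
theorem near_gd (n r K K' s₁ : ℕ) (sh : ℕ → ℕ) (hr : r ≤ n) (hK' : 1 ≤ K') :
    ∃ (L : ℝ) (s₂ : ℕ), 1 ≤ L ∧
    ∀ (m J Jd : ℕ) (F : Fam m J) (c : ℕ → Fin m) (a : ℕ) (g E : ℕ → ℕ) (y : ℕ)
    (G : ℕ → MvPolynomial (Option (Fin m)) ℝ) (P : ℕ → PN) (ω : F.Ω), a ≤ Jd → Inj c n →
    (∀ i < n, (G i).totalDegree ≤ K) → (∀ i, DepC c i (G i)) →
    (∀ i < r, ∀ b : Option (Fin m) → ℝ, NBx c G g a (F.t ω) i b → ∀ l < i,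
      |eval b (pderiv (some (c l)) (G i))| ≤ 2 ^ E i) →
    (∀ i, 1 ≤ i → i ≤ r → (P i).vars ⊆ range i) → (∀ i, 1 ≤ i → i ≤ r →
      (P i).totalDegree ≤ K') → P 0 = MvPolynomial.C (F.t ω) →
    Nr K' (2 ^ s₁) (gg a g) P (sy c n (F.t ω) G) (n + 1) →
    (∀ i, 1 ≤ i → i ≤ r → |cx F (fun i => c (i - 1)) ω i -
      eval (cx F (fun i => c (i - 1)) ω) (P i)| ≤ 1 / 2 ^ (g (i - 1) - sh i)) →
    (∀ i < r, sh (i + 1) ≤ g i) → (∀ i < r, g i + y + E i + s₂ ≤ Jd) →
    ∀ b : ℕ → ℝ, b 0 = F.t ω → ∀ i, 1 ≤ i → i ≤ r →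
    (∀ j, 1 ≤ j → j < i → |b j - cx F (fun i => c (i - 1)) ω j| ≤ 1 / 2 ^ Jd) →
    |eval b (P i) - eval (cx F (fun i => c (i - 1)) ω) (P i)| ≤
      L / 2 ^ (g (i - 1) - sh i + y) := by
  obtain ⟨K₂, hK₂⟩ : ∃ K₂, K₂ = max K K' := ⟨_, rfl⟩
  obtain ⟨C₁, hC₁, hdil⟩ := dil n K₂
  obtain ⟨K₁, hK₁⟩ : ∃ K₁, K₁ = K₂ * (K₂ + 1) ^ (n + 1) := ⟨_, rfl⟩
  rw [← hK₁] at hdil
  obtain ⟨M, hM⟩ := cc_le K' n
  obtain ⟨SH, hSH⟩ : ∃ SH, SH = ∑ i ∈ range (n + 1), sh i := ⟨_, rfl⟩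
  have hSHle : ∀ i ≤ n, sh i ≤ SH := fun i hi => by
    rw [hSH]
    exact Finset.single_le_sum (f := sh) (fun _ _ => Nat.zero_le _) (mem_range.2 (by omega))
  obtain ⟨Θ, hΘ⟩ : ∃ Θ : ℝ, Θ = 2 * K' * 2 ^ s₁ * 2 ^ SH := ⟨_, rfl⟩
  have hK1 : (1 : ℝ) ≤ K' := by exact_mod_cast hK'
  have hs1 : (1 : ℝ) ≤ 2 ^ s₁ := one_le_pow₀ (by norm_num)
  have hs2 : (1 : ℝ) ≤ 2 ^ SH := one_le_pow₀ (by norm_num)
  have hΘ1 : 1 ≤ Θ := by
    rw [hΘ]
    have h1 : (1 : ℝ) ≤ 2 * K' := by linarith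
    have h2 : (1 : ℝ) ≤ 2 * K' * 2 ^ s₁ := by nlinarith
    nlinarith
  obtain ⟨ρ, hρ⟩ : ∃ ρ : ℝ, ρ = Θ ^ M := ⟨_, rfl⟩
  have hρ1 : 1 ≤ ρ := by
    rw [hρ]
    exact one_le_pow₀ hΘ1
  obtain ⟨S, hS⟩ : ∃ S : ℝ, S = (K' * 2 ^ s₁ * ρ) ^ K' := ⟨_, rfl⟩
  have hS0 : 0 ≤ S := by
    rw [hS]
    positivity
  obtain ⟨s₂, hs₂⟩ := pow_unbounded_of_one_lt (C₁ * ρ ^ K₁) (one_lt_two (α := ℝ))
  obtain ⟨L, hL, hnear⟩ := NEAR.near r K₂ hS0
  refine ⟨L, s₂, hL, ?_⟩
  intro m J Jd F c a g E y G P ω ha hc hGK hdep hlip hPv hPd hP0 hNr hfit hsh hsiz b hb0 i hi1 hi hb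
  obtain ⟨x, hx⟩ : ∃ x, x = cx F (fun i => c (i - 1)) ω := ⟨_, rfl⟩
  have hx0 : x 0 = F.t ω := by
    rw [hx]
    exact if_pos rfl
  rw [← hx] at hfit hb ⊢
  obtain ⟨P', hP'⟩ : ∃ P' : ℕ → PN, P' = fun i => if i = 0 then MvPolynomial.C (F.t ω) else
    if i ≤ r then P i else 0 := ⟨_, rfl⟩
  have eP0 : P' 0 = MvPolynomial.C (F.t ω) := by rw [hP']; exact if_pos rfl
  have eP : ∀ j, 1 ≤ j → j ≤ r → P' j = P j := by
    intro j h1 h2
    rw [hP']
    show (if j = 0 then _ else if j ≤ r then P j else 0) = P j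
    rw [if_neg (by omega), if_pos h2]
  obtain ⟨g', hg'⟩ : ∃ g' : ℕ → ℕ, g' = fun i => if i = 0 then Jd else g (i - 1) - sh i := ⟨_, rfl⟩
  have eg0 : g' 0 = Jd := by rw [hg']; exact if_pos rfl
  have eg : ∀ j, 1 ≤ j → g' j = g (j - 1) - sh j := by
    intro j h1
    rw [hg']
    exact if_neg (by omega)
  have pJ : (1 : ℝ) / 2 ^ Jd ≤ 1 / 2 ^ a :=
    one_div_le_one_div_of_le (by positivity) (pow_le_pow_right₀ (by norm_num) ha)
  -- the boxes
  have box1 : ∀ j, 1 ≤ j → j ≤ r → ∀ b : ℕ → ℝ, Bx g' P' j b →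
      Bxr (2 ^ SH) (gg a g) P j b := by
    intro j hj1 hj b hb l hl
    rcases Nat.eq_zero_or_pos l with rfl | hl0
    · have h1 := hb 0 hl
      rw [eP0, eval_C, eg0] at h1
      rw [hP0, eval_C]
      have h3 : gg a g 0 = a := if_pos rfl
      rw [h3]
      exact (h1.trans pJ).trans (div_le_div_of_nonneg_right hs2 (by positivity))
    · have h1 := hb l hl
      rw [eP l hl0 (by omega), eg l hl0] at h1
      have h3 : gg a g l = g (l - 1) := if_neg (by omega)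
      rw [h3]
      refine h1.trans ?_
      have h4 := hsh (l - 1) (by omega)
      rw [Nat.sub_add_cancel hl0] at h4
      have h5 := hSHle l (by omega)
      rw [div_le_div_iff₀ (by positivity) (by positivity), one_mul, ← pow_add]
      exact pow_le_pow_right₀ (by norm_num) (by omega)
  have box2 : ∀ j, 1 ≤ j → j ≤ r → ∀ b : ℕ → ℝ, Bx g' P' j b →
      Bxr ρ (gg a g) (sy c n (F.t ω) G) j b := by
    intro j hj1 hj b hb
    have h1 := Nr.box hK' hs1 (hNr.mono (show j ≤ n + 1 by omega)) hs2 (box1 j hj1 hj b hb) j le_rfl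
    refine h1.mono ?_ le_rfl
    rw [hρ, hΘ]
    rw [hΘ] at hΘ1
    exact pow_le_pow_right₀ hΘ1 (hM j (by omega))
  have hd : NEAR.Dat r K₂ S P' (sy c n (F.t ω) G) g' x (fun j => E (j - 1) + s₂) Jd y := by
    refine
      { tri := fun j => ?_
        deg := fun j => ?_
        triG := fun j _ _ => sy_tri j
        degG := fun j _ _ => (sy_deg hGK j).trans (by rw [hK₂]; exact le_max_left _ _)
        zero := by rw [eP0, hx0]
        fit := fun j h1 h2 => ?_
        near := fun j h1 h2 b hb => ?_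
        lip := fun j h1 h2 b hb l hl1 hl => ?_
        siz := fun j h1 h2 => ?_ }
    · rw [hP']
      show (if j = 0 then MvPolynomial.C (F.t ω) else if j ≤ r then P j else 0).vars ⊆ range j
      split_ifs with h1 h2
      · rw [vars_C]
        exact Finset.empty_subset _
      · exact hPv j (by omega) h2
      · rw [vars_0]
        exact Finset.empty_subset _
    · rw [hP']
      show (if j = 0 then MvPolynomial.C (F.t ω) else if j ≤ r then P j else 0).totalDegree ≤ K₂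
      split_ifs with h1 h2
      · rw [totalDegree_C]
        exact Nat.zero_le _
      · exact (hPd j (by omega) h2).trans (by rw [hK₂]; exact le_max_right _ _)
      · rw [totalDegree_zero]
        exact Nat.zero_le _
    · rw [eP j h1 h2, eg j h1]
      exact hfit j h1 h2
    · have h3 := hNr.2 j h1 (by omega) ρ hρ1 b (box2 j h1 h2 b hb)
      have h4 : gg a g j = g (j - 1) := if_neg (by omega)
      rw [h4, ← hS] at h3
      rw [eP j h1 h2, eg j h1, abs_sub_comm]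
      exact h3.trans (div_le_div_of_nonneg_left hS0 (by positivity)
        (pow_le_pow_right₀ (by norm_num) (Nat.sub_le _ _)))
    · obtain ⟨j, rfl⟩ : ∃ j', j = j' + 1 := ⟨j - 1, by omega⟩
      obtain ⟨l, rfl⟩ : ∃ l', l = l' + 1 := ⟨l - 1, by omega⟩
      have h3 : (sy c n (F.t ω) G (j + 1)) = tr c j (G j) := sy_succ (by omega)
      have h4 : ∀ b : ℕ → ℝ, Bxr 1 (gg a g) (sy c n (F.t ω) G) (j + 1) b →
          |eval b (pderiv (l + 1) (tr c j (G j)))| ≤ 2 ^ E j := by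
        intro b hb
        have h5 := nbx_of_bxr hc hdep (by omega) hb
        have h6 := hlip j (by omega) _ h5 l (by omega)
        rw [pd_tr hc (by omega) (by omega)]
        unfold tr
        rw [AdxRow.evl_bnd]
        exact h6
      rw [h3]
      refine (hdil (sy c n (F.t ω) G) (gg a g) (pderiv (l + 1) (tr c j (G j))) (j + 1) (2 ^ E j) ρ
        sy_tri (fun i => (sy_deg hGK i).trans (by rw [hK₂]; exact le_max_left _ _)) (by omega)
        ((NEAR.vars_pd _ _).trans (tr_vars _ _ _))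
        (NEAR.deg_pd ((tr_deg _ _ _).trans ((hGK j (by omega)).trans
          (by rw [hK₂]; exact le_max_left _ _))) _) hρ1 h4 b (box2 (j + 1) h1 h2 b hb)).trans ?_
      show _ ≤ (2 : ℝ) ^ (E (j + 1 - 1) + s₂)
      rw [Nat.add_sub_cancel, pow_add]
      have h5 : (0 : ℝ) < 2 ^ E j := by positivity
      nlinarith
    · have h3 := hsiz (j - 1) (by omega)
      rw [eg j h1]
      show g (j - 1) - sh j + y + (E (j - 1) + s₂) ≤ Jd
      omega
  have h1 := hnear P' (sy c n (F.t ω) G) g' x (fun j => E (j - 1) + s₂) Jd y hd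
    (fun j => if j < i then b j else x j) (by
      show (if 0 < i then b 0 else x 0) = x 0
      rw [if_pos (by omega), hb0, hx0]) (fun j _ => by
      show |(if j < i then b j else x j) - x j| ≤ _
      split_ifs with h
      · rcases Nat.eq_zero_or_pos j with rfl | hj0
        · rw [hb0, hx0, sub_self, abs_zero]
          positivity
        · exact hb j hj0 h
      · rw [sub_self, abs_zero]
        positivity) i hi
  rw [eP i hi1 hi, eg i hi1] at h1
  have h2 : eval (fun j => if j < i then b j else x j) (P i) = eval b (P i) :=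
    eval_cg (hPv i hi1 hi) fun j hj => if_pos hj
  rwa [h2] at h1

end CLO

end Pool.STAT
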