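import Pool.Agent.H6.MIC.NfC
import Pool.Agent.H65.NFC.One
import Pool.Agent.H65.NFC.Near

/-!
# The rows of the target given the closed context, from the rates of the target

`NrN`: the labels at the points have small variation in the cells of size `2 ^ (-J)`. `RtN`: the
rates of the target given the digits before, the base to `J` digits, the context and the time.
`nfc_of`: the rows `NFc1` of a cell. `nrn_fam`: `NrN` for the labels of a grid (copy of `nfh_fam` of
helper6 without the exactness of the base).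
-/

set_option autoImplicit false

namespace Pool.NFC65

open Finset MvPolynomial
open Pool.Agent.H49.Ent Pool.Agent.H32.Dense Pool.STK Pool.KS3 Pool.STAT Pool.STAT.CLO Pool.MIC6
open Pool.KA Pool.KSAT Pool.PB Pool.GEN Pool.K2S
open Pool.P4 (NFc1)

/-- **The labels at the points have small variation in the small cells.** -/
structure NrN (D : NDat2) (n J M Y : ℕ) (L₀ : ℝ) (q : D.Ω → ℝ) : Prop where
  near : ∀ i ≤ M, ∀ j ≤ M, ∀ ω ω', 0 < q ω → 0 < q ω' → D.s i j ω = D.s i j ω' →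
    D.T ω = D.T ω' → ∀ l, 1 ≤ l → l ≤ n →
    (∀ k : Fin (n - 1), (k : ℕ) + 1 < l → vj D n J ω k = vj D n J ω' k) →
    |eval (D.X ω) (D.Ψ i j ω l) - eval (D.X ω') (D.Ψ i j ω' l)| ≤ L₀ / 2 ^ (D.g i j l + Y)
  siz : ∀ i ≤ M, ∀ j ≤ M, ∀ l, 1 ≤ l → l ≤ n → D.g i j l + Y ≤ J

/-- **The rates of the target**: the digits `0, …, U z` behind the precision of the label at
`(i, j)`, given the digits before, the base to `J` digits, the context and the time. -/
def RtN (D : NDat2) (n J z M : ℕ) (gam : ℕ → ℝ) (x k : ℝ) (q : D.Ω → ℝ) : Prop :=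
  ∀ i, 1 ≤ i → i ≤ M → ∀ j ≤ M, ∀ U : ℕ, i + U ≤ M → (U : ℝ) ≤ gam n * (M - j) →
    (1 - x) * (U * z) * Real.log 2 - k * z ≤
      CH q (fun ω => ⌊(2 : ℝ) ^ (D.g i j n + U * z) * D.X ω n⌋)
        (fun ω => (⌊(2 : ℝ) ^ (D.g i j n) * D.X ω n⌋, (vj D n J ω, (D.c i j ω, D.T ω))))

variable {D : NDat2} {n J z M Y B : ℕ} {gam : ℕ → ℝ} {L₀ x k C₁ : ℝ} {q : D.Ω → ℝ}

/-- **Few values of a height**, given the base to `J` digits and a number near the position. -/
theorem NrN.few (h : NrN D n J M Y L₀ q) (hq : IsLaw q) (hL : 0 ≤ L₀) {i j l d : ℕ} (hi : i ≤ M)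
    (hj : j ≤ M) (hl : 1 ≤ l) (hln : l ≤ n) (hd : d ≤ Y) {W : Type} {y : D.Ω → W}
    (hs : Det q y (fun ω => (D.s i j ω, D.T ω))) (hv : Det q y (vj D n J))
    (hx : ∀ ω ω', 0 < q ω → 0 < q ω' → y ω = y ω' →
      |D.X ω l - D.X ω' l| ≤ 1 / 2 ^ (D.g i j l + d)) :
    CH q (fun ω => ⌊(2 : ℝ) ^ (D.g i j l + d) * D.sh i j ω l⌋) y ≤ Real.log (5 + 2 * L₀) := by
  have key := CH_le_int hq.nonneg hq.sum_one
    (fun ω => ⌊(2 : ℝ) ^ (D.g i j l + d) * D.sh i j ω l⌋) y (fun _ => 2 + L₀)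
    (fun ω ω' hω hω' e => by
      have e1 := hs ω ω' hω hω' e
      simp only [Prod.mk.injEq] at e1
      have h2 := h.near i hi j hj ω ω' hω hω' e1.1 e1.2 l hl hln
        (fun k _ => congrFun (hv ω ω' hω hω' e) k)
      have h3 : L₀ / 2 ^ (D.g i j l + Y) ≤ L₀ / 2 ^ (D.g i j l + d) :=
        div_le_div_of_nonneg_left hL (by positivity)
          (pow_le_pow_right₀ one_le_two (by omega))
      have h4 := near_sh (hx ω ω' hω hω' e) (h2.trans h3)
      rw [← add_div] at h4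
      refine (hgt_diff h4).trans (le_of_eq ?_)
      rw [mul_div_cancel₀ _ (by positivity)]
      ring)
  rw [Ex_const hq.sum_one] at key
  refine key.trans (Real.log_le_log (by positivity) (by linarith))

/-- **Few values of the position** of the target given the height. -/
theorem NrN.few' (h : NrN D n J M Y L₀ q) (hq : IsLaw q) (hL : 0 ≤ L₀) {i j l d : ℕ} (hi : i ≤ M)
    (hj : j ≤ M) (hl : 1 ≤ l) (hln : l ≤ n) (hd : d ≤ Y) {W : Type} {y : D.Ω → W}
    (hs : Det q y (fun ω => (D.s i j ω, D.T ω))) (hv : Det q y (vj D n J))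
    (hx : Det q y (fun ω => ⌊(2 : ℝ) ^ (D.g i j l + d) * D.sh i j ω l⌋)) :
    CH q (fun ω => ⌊(2 : ℝ) ^ (D.g i j l + d) * D.X ω l⌋) y ≤ Real.log (5 + 2 * L₀) := by
  have key := CH_le_int hq.nonneg hq.sum_one
    (fun ω => ⌊(2 : ℝ) ^ (D.g i j l + d) * D.X ω l⌋) y (fun _ => 2 + L₀)
    (fun ω ω' hω hω' e => by
      have e1 := hs ω ω' hω hω' e
      simp only [Prod.mk.injEq] at e1
      have h2 := h.near i hi j hj ω ω' hω hω' e1.1 e1.2 l hl hln
        (fun k _ => congrFun (hv ω ω' hω hω' e) k)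
      have h3 : L₀ / 2 ^ (D.g i j l + Y) ≤ L₀ / 2 ^ (D.g i j l + d) :=
        div_le_div_of_nonneg_left hL (by positivity)
          (pow_le_pow_right₀ one_le_two (by omega))
      have h4 := pos_near (sh_near (hx ω ω' hω hω' e)) (h2.trans h3)
      rw [← add_div] at h4
      refine (hgt_diff h4).trans (le_of_eq ?_)
      rw [mul_div_cancel₀ _ (by positivity)]
      ring)
  rw [Ex_const hq.sum_one] at key
  refine key.trans (Real.log_le_log (by positivity) (by linarith))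

/-- **The rows given the closed context**, from the rates of the target. -/
theorem nfc_of (hn : 1 ≤ n) (hq : IsLaw q) (hL : 0 ≤ L₀) (h : NrN D n J M Y L₀ q)
    (hY : M * z ≤ Y) (hBY : B * (M * z) ≤ Y)
    (hs : ∀ i ≤ M, ∀ j ≤ M, Det q (fun ω => (D.c i j ω, D.T ω)) (D.s i j))
    (hr : RtN D n J z M gam x k q)
    (hC : k * z + (n + 1) * Real.log (5 + 2 * L₀) ≤ C₁ * z) :
    NFc1 D n z M B gam x C₁ q := by
  intro i hi1 hi j hj U hU hgU
  have h0 := hr i hi1 hi j hj U hU hgU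
  have hUM : U * z ≤ M * z := Nat.mul_le_mul_right z (by omega)
  have hUY : U * z ≤ Y := hUM.trans hY
  have hBU : B * (U * z) ≤ Y := (Nat.mul_le_mul_left B hUM).trans hBY
  have hlog : 0 ≤ Real.log (5 + 2 * L₀) := Real.log_nonneg (by linarith)
  obtain ⟨La, hLa⟩ : ∃ La : D.Ω → D.Γ × ℕ, La = fun ω => (D.c i j ω, D.T ω) := ⟨_, rfl⟩
  obtain ⟨A, hA⟩ : ∃ A : D.Ω → ℤ, A = fun ω => ⌊(2 : ℝ) ^ (D.g i j n + U * z) * D.X ω n⌋ :=
    ⟨_, rfl⟩
  obtain ⟨A', hA'⟩ : ∃ A' : D.Ω → ℤ, A' = D.nd n i j (U * z) := ⟨_, rfl⟩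
  obtain ⟨N0, hN0⟩ : ∃ N0 : D.Ω → ℤ, N0 = fun ω => ⌊(2 : ℝ) ^ (D.g i j n) * D.X ω n⌋ := ⟨_, rfl⟩
  obtain ⟨R0, hR0⟩ : ∃ R0 : D.Ω → ℤ, R0 = D.nd n i j 0 := ⟨_, rfl⟩
  obtain ⟨Rv, hRv⟩ : ∃ Rv : D.Ω → (Fin (n - 1) → ℤ), Rv = D.vd n i j (B * (U * z)) := ⟨_, rfl⟩
  have hsL : Det q La (fun ω => (D.s i j ω, D.T ω)) := fun ω ω' a b e => by
    rw [hLa] at e
    simp only [Prod.mk.injEq] at e
    exact Prod.ext (hs i hi j hj ω ω' a b (Prod.ext e.1 e.2)) e.2
  -- the position of the target given the height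
  have s1 : CH q A (fun ω => (A' ω, (vj D n J ω, La ω))) ≤ Real.log (5 + 2 * L₀) := by
    rw [hA]
    refine h.few' hq hL hi hj hn le_rfl hUY (fun ω ω' a b e => ?_) (fun ω ω' a b e => ?_)
      (fun ω ω' a b e => ?_)
    · simp only [Prod.mk.injEq] at e
      exact hsL ω ω' a b e.2.2
    · simp only [Prod.mk.injEq] at e
      exact e.2.1
    · simp only [Prod.mk.injEq] at e
      rw [hA'] at e
      exact e.1
  -- the height to `0` digits
  have s2 : CH q R0 (fun ω => (N0 ω, (vj D n J ω, La ω))) ≤ Real.log (5 + 2 * L₀) := by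
    rw [hR0]
    have h1 := h.few (d := 0) hq hL hi hj hn le_rfl (Nat.zero_le _)
      (y := fun ω => (N0 ω, (vj D n J ω, La ω))) (fun ω ω' a b e => by
        simp only [Prod.mk.injEq] at e
        exact hsL ω ω' a b e.2.2) (fun ω ω' a b e => by
        simp only [Prod.mk.injEq] at e
        exact e.2.1) (fun ω ω' a b e => by
        simp only [Prod.mk.injEq] at e
        have e1 := e.1
        rw [hN0] at e1
        exact floor_near e1)
    exact h1
  -- the heights of the base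
  have s3 : CH q Rv (fun ω => (R0 ω, (N0 ω, (vj D n J ω, La ω)))) ≤
      ((n - 1 : ℕ) : ℝ) * Real.log (5 + 2 * L₀) := by
    have key := ch_vec hq Rv (fun ω => (R0 ω, (N0 ω, (vj D n J ω, La ω))))
      (fun _ _ => 2 + L₀) (fun l ω ω' hω hω' e _ => by
        simp only [Prod.mk.injEq] at e
        have e1 := hsL ω ω' hω hω' e.2.2.2
        simp only [Prod.mk.injEq] at e1
        have hl : (l : ℕ) + 1 ≤ n := by have := l.2; omega
        have h2 := h.near i hi j hj ω ω' hω hω' e1.1 e1.2 (l + 1) (by omega) hl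
          (fun k _ => congrFun e.2.2.1 k)
        have h5 := h.siz i hi j hj (l + 1) (by omega) hl
        have h3 : L₀ / 2 ^ (D.g i j (l + 1) + Y) ≤
            L₀ / 2 ^ (D.g i j (l + 1) + B * (U * z)) :=
          div_le_div_of_nonneg_left hL (by positivity)
            (pow_le_pow_right₀ one_le_two (by omega))
        have h6 : |D.X ω (l + 1) - D.X ω' (l + 1)| ≤ 1 / 2 ^ (D.g i j (l + 1) + B * (U * z)) := by
          have h7 : |D.X ω (l + 1) - D.X ω' (l + 1)| ≤ 1 / 2 ^ J :=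
            floor_near (congrFun e.2.2.1 l)
          exact h7.trans (one_div_le_one_div_of_le (by positivity)
            (pow_le_pow_right₀ one_le_two (by omega)))
        have h4 := near_sh h6 (h2.trans h3)
        rw [← add_div] at h4
        have h8 := hgt_diff (a := D.g i j (l + 1) + B * (U * z)) h4
        rw [hRv]
        refine h8.trans (le_of_eq ?_)
        rw [mul_div_cancel₀ _ (by positivity)]
        ring)
    refine key.trans ?_
    have e1 : ∀ l ∈ range (n - 1), Ex q (fun _ => Real.log (2 * (2 + L₀) + 1)) =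
        Real.log (5 + 2 * L₀) := fun l _ => by
      rw [Ex_const hq.sum_one]
      congr 1
      ring
    rw [Finset.sum_congr rfl e1, Finset.sum_const, Finset.card_range, nsmul_eq_mul]
  -- assembly
  have a1 := CH_le_add hq.nonneg A A' (fun ω => (N0 ω, (vj D n J ω, La ω)))
  have a2 : CH q A (fun ω => (A' ω, (N0 ω, (vj D n J ω, La ω)))) ≤
      CH q A (fun ω => (A' ω, (vj D n J ω, La ω))) := by
    refine CH_mono_cond hq.nonneg fun ω ω' _ _ e => ?_
    simp only [Prod.mk.injEq] at e ⊢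
    exact ⟨e.1, e.2.2.1, e.2.2.2⟩
  have a3 := CH_le_add hq.nonneg A' (fun ω => (Rv ω, R0 ω)) (fun ω => (N0 ω, (vj D n J ω, La ω)))
  have a4 := CH_chain hq.nonneg Rv R0 (fun ω => (N0 ω, (vj D n J ω, La ω)))
  have a5 : CH q A' (fun ω => ((Rv ω, R0 ω), (N0 ω, (vj D n J ω, La ω)))) ≤
      CH q A' (fun ω => (R0 ω, (Rv ω, La ω))) := by
    refine CH_mono_cond hq.nonneg fun ω ω' _ _ e => ?_
    simp only [Prod.mk.injEq] at e ⊢
    exact ⟨e.1.2, e.1.1, e.2.2.2⟩
  have e0 : CH q (fun ω => ⌊(2 : ℝ) ^ (D.g i j n + U * z) * D.X ω n⌋)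
      (fun ω => (⌊(2 : ℝ) ^ (D.g i j n) * D.X ω n⌋, (vj D n J ω, (D.c i j ω, D.T ω)))) =
      CH q A (fun ω => (N0 ω, (vj D n J ω, La ω))) := by
    rw [hA, hN0, hLa]
  have e1 : CH q (D.nd n i j (U * z)) (fun ω => (D.nd n i j 0 ω,
      (D.vd n i j (B * (U * z)) ω, (D.c i j ω, D.T ω)))) =
      CH q A' (fun ω => (R0 ω, (Rv ω, La ω))) := by
    rw [hA', hR0, hRv, hLa]
  rw [e0] at h0
  rw [e1]
  have hn1 : ((n - 1 : ℕ) : ℝ) = n - 1 := by
    rw [Nat.cast_sub hn, Nat.cast_one]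
  rw [hn1] at s3
  linarith

/-- **The labels of a grid have small variation** in the cells of `Jd` digits. -/
theorem nrn_fam (n K K' s₁ : ℕ) (sh : ℕ → ℕ) (hK' : 1 ≤ K') : ∃ (L : ℝ) (s₂ : ℕ), 1 ≤ L ∧
    ∀ {m J Jd : ℕ} {F : Fam m J} {D : GDat F} {c : ℕ → Fin m} {a₀ w₀ z M Y : ℕ} {e : ℕ → ℕ → ℕ}
    {g : ℕ → ℕ → ℕ → ℕ} {B : F.Ω → Prop} {R : ℕ → ℕ → Type} {ρ : (i j : ℕ) → LnT F → R i j},
    D.Ok c n K K' s₁ sh a₀ w₀ z M e g B → Inj c n → a₀ + M * z ≤ Jd →
    (∀ i ≤ M, ∀ j ≤ M, ∀ l < n, sh (l + 1) ≤ g i j l) → SizY n Jd Y M s₂ e g →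
    ∀ {q : F.Ω → ℝ}, (∀ ω, 0 < q ω → B ω) →
    NrN (D.nd c n sh w₀ z M g ρ) n Jd M Y L q := by
  obtain ⟨L, s₂, hL, hnear⟩ := near_gd n n K K' s₁ sh le_rfl hK'
  refine ⟨L, s₂, hL, ?_⟩
  intro m J Jd F D c a₀ w₀ z M Y e g B R ρ h hc haM hsh hsiz q hB
  have hgle : ∀ i j l, g i j l ≤ (range (l + 1)).sup (g i j) := fun i j l =>
    Finset.le_sup (f := g i j) (mem_range.2 (by omega))
  have hgnd : ∀ i j l, 1 ≤ l → (D.nd c n sh w₀ z M g ρ).g i j l = g i j (l - 1) - sh l :=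
    fun i j l l1 => CDat2.nd2_g _ _ _ _ _ _ _ l1
  refine ⟨fun i hi j hj ω ω' hω hω' es eT l l1 l2 hk => ?_, fun i hi j hj l l1 l2 => ?_⟩
  · have hai : a₀ + i * z ≤ Jd := by
      have : i * z ≤ M * z := Nat.mul_le_mul_right _ hi
      omega
    have hch := h.chn i hi j hj
    have hO := h.out i hi j hj
    have et : F.t ω = F.t ω' := by
      unfold Fam.t
      rw [show F.T ω = F.T ω' from eT]
    have ez : D.zS i j (ptr F J ω) = D.zS i j (ptr F J ω') := es
    have eΨ : ∀ ω, (D.nd c n sh w₀ z M g ρ).Ψ i j ω l = (D.cd n ρ).Ps2 i j ω l := fun ω =>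
      CDat2.nd2_Ψ (D.cd n ρ) (cx F fun i => c (i - 1)) (pc c) w₀ z M
        (fun i j l => g i j (l - 1) - sh l) hi hj l1 l2 ω
    rw [hgnd i j l l1, eΨ, eΨ]
    have h1 := hnear m J Jd F c (a₀ + i * z) (g i j)
      (fun l => e i j + ((range (l + 1)).sup (g i j) - g i j l)) Y (D.G i j (ptr F J ω))
      (D.PS i j (D.zS i j (ptr F J ω))) ω hai hc (fun k _ => hch.degG _ k)
      (fun k => hch.depG _ k) (fun k hk b hb l hl => by
        refine (hch.lip ω (hB ω hω) k (by omega) b hb l hl).trans ?_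
        refine pow_le_pow_right₀ (by norm_num) (Nat.add_le_add_left ?_ _)
        unfold nlp
        have h5 : (Finset.Icc l k).sup (g i j) ≤ (range (k + 1)).sup (g i j) := by
          refine Finset.sup_mono fun x hx => ?_
          rw [Finset.mem_Icc] at hx
          exact mem_range.2 (by omega)
        omega)
      (fun k _ _ => hO.Stri _ k) (fun k _ _ => hO.Sdeg _ k)
      (by
        rw [hO.Szero, hO.Sfst]
        exact congrArg MvPolynomial.C (tx_eq (F := F) ω)) (hO.nrS ω (hB ω hω))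
      (fun k h1 h2 => hO.pos ω (hB ω hω) k h1 h2) (hsh i hi j hj) (fun l hl => by
        have h5 := hgle i j l
        have h6 := hsiz i hi j hj l hl
        omega)
      (cx F (fun i => c (i - 1)) ω') (by
        show (if 0 = 0 then F.t ω' else _) = _
        rw [if_pos rfl, et]) l l1 l2 (fun k k1 k2 => by
        have h2 := floor_near (a := Jd) (hk ⟨k - 1, by omega⟩ (by
          show k - 1 + 1 < l
          omega))
        simp only [Nat.sub_add_cancel k1] at h2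
        rw [abs_sub_comm]
        exact h2)
    rw [abs_sub_comm]
    show |eval (cx F (fun i => c (i - 1)) ω') (D.PS i j (D.zS i j (ptr F J ω')) l) -
      eval (cx F (fun i => c (i - 1)) ω) (D.PS i j (D.zS i j (ptr F J ω)) l)| ≤ _
    rw [← ez]
    exact h1
  · rw [hgnd i j l l1]
    have h5 := hgle i j (l - 1)
    have h6 := hsiz i hi j hj (l - 1) (by omega)
    rw [Nat.sub_add_cancel l1] at h5 h6
    omega

end Pool.NFC65
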