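import Pool.Agent.H56.FRX.Rdt

/-!
# The data of one zoom without exactness

`RDq`: the data of one zoom (`RDt` of helper83) without the exactness of all coordinates: it is
available for lists whose last coordinate has a deficit. `rdq_all`: countably many zooms.
`RDq.rate`: the rate of the last coordinate of a greedy order. `RDq.toRDt`: exactness, if the
number of coordinates has it.
-/

set_option autoImplicit false

namespace Pool.FRX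

open Finset Real MeasureTheory
open Pool.Agent.H49.Ent Pool.Agent.H32.Dense Pool.STK Pool.KA Pool.KSAT Pool.K2S Pool.PB Pool.S6C
open Pool.GEN Pool.REX Pool.REX83

variable {m n J : ℕ}

/-- The data of one zoom: the tube `p`, an active coordinate `κ`, the numbers `L` of the closed
labels, a greedy order at all windows outside a countable set. -/
structure RDq (S : PCl m) (v : Vz m) (ε : Fin n → Fin m) (p : ℝ) (κ : Fin n)
    (L : Finset (Fin n) → Fin n → ℝ → ℝ → ℝ) : Prop where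
  p0 : 0 < p
  p1 : p < 1 / 2
  lam : LamW (RecV S (atp v p p0.le (p1.trans (by norm_num))) ε) L
  act : ∃ (Na : ℚ → ℚ → ℝ) (al : ℝ) (g₀ : ℝ → ℝ), 0 < al ∧ (∀ e, 0 < e → 0 < g₀ e) ∧
    ActM Na al g₀ ∧ ActB Na (RecV S (atp v p p0.le (p1.trans (by norm_num))) ε) κ
  cov : ∃ D : Set ℝ, D.Countable ∧ ∀ w : ℝ, 0 < w → w < 1 → w ∉ D →
    ∃ σ : Equiv.Perm (Fin n), w ∈ Wv L (fun j => σ j) ∧ ∀ j : Fin n, (j : ℕ) = 0 → σ j = κ

/-- The data of 83 without exactness. -/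
theorem RDq.of_rdt {S : PCl m} {v : Vz m} {ε : Fin n → Fin m} {p : ℝ} {κ : Fin n}
    {L : Finset (Fin n) → Fin n → ℝ → ℝ → ℝ} (h : RDt S v ε p κ L) : RDq S v ε p κ L := by
  obtain ⟨p0, p1, h1, h2, D, hD, h3⟩ := h
  refine ⟨p0, p1, h1, h2, D, hD, fun w a b c => ?_⟩
  obtain ⟨σ, x, y, -⟩ := h3 w a b c
  exact ⟨σ, x, y⟩

/-- **The rate of the last coordinate of a greedy order** (`RDt.rate` of helper56). -/
theorem RDq.rate {S : PCl m} {v : Vz m} {ε : Fin n → Fin m} {p : ℝ} {κ : Fin n}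
    {L : Finset (Fin n) → Fin n → ℝ → ℝ → ℝ} (h : RDq S v ε p κ L) (hne : S.Ne) {C₀ : ℝ}
    (hC₀ : 0 ≤ C₀) (htm : TmC S C₀) {x : ℝ} (hF : FZQ n x) {w : ℝ} {σ : Fin n → Fin n}
    (hσ : Function.Injective σ) (hw : w ∈ Wv L σ) (hσ0 : ∀ j : Fin n, (j : ℕ) = 0 → σ j = κ)
    {i : Fin n} (hi : (i : ℕ) + 1 = n) {Q₁ Q₂ : ℝ} (hQ1 : vs L σ w n ≤ Q₁) (hQ12 : Q₁ ≤ Q₂)
    (hQ2 : Q₂ ≤ 1) {ρ : ℝ} (hρ : 0 < ρ) : Bas S (fun J F A =>
      ((1 - x) * ((v.b + (1 - v.b) * (p + (1 - p) * Q₂)) -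
        (v.b + (1 - v.b) * (p + (1 - p) * Q₁))) - ρ) * Real.log 2 * J ≤
        CH (Pool.Agent.H49.Ent.cond F.p A True)
          (fun ω => F.X ⌊(v.b + (1 - v.b) * (p + (1 - p) * Q₂)) * J⌋₊ ω (ε (σ i)))
          (fun ω => (dB F (fun j => ε (σ j)) i
            ⌊(v.b + (1 - v.b) * (p + (1 - p) * Q₁)) * J⌋₊ ω, (v.y J F ω, F.W ω)))) := by
  obtain ⟨p0, p1, hL, ⟨Na, al, g₀, hal, hg₀, hM, hB⟩, -⟩ := h
  have h1 := rexq n hF hC₀ htm (atp v p p0.le (p1.trans (by norm_num))) ε (recV_ne hne _ _)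
    (fun _ _ _ _ h => h) hL hal hg₀ hM hσ (fun j hj => by rw [hσ0 j hj]; exact hB) hw hi hQ1
    hQ12 hQ2 hρ
  -- all families are in the pull-back
  obtain ⟨τ, hτ, J₁, hb⟩ := h1
  refine ⟨τ, hτ, J₁, fun J hJ F A hA => hb J hJ F A ⟨hA, fun h => ?_⟩⟩
  have hb0 := v.b0
  have hb1 := v.b1
  refine (RecV S (atp v p p0.le (p1.trans (by norm_num))) ε).mono ?_ (recV_mk hA h)
  have hc : 0 < (1 - v.b) * (1 - p) := mul_pos (by linarith) (by linarith)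
  have h1c : 1 ≤ 1 / ((1 - v.b) * (1 - p)) := by
    rw [le_div_iff₀ hc, one_mul]
    exact mul_le_one₀ (by linarith) (by linarith) (by linarith)
  calc τ = 1 * τ := (one_mul τ).symm
    _ ≤ 1 / ((1 - v.b) * (1 - p)) * τ := mul_le_mul_of_nonneg_right h1c hτ.le

/-- **Exactness** from the data, if the number of coordinates has it. -/
theorem RDq.toRDt {S : PCl m} {v : Vz m} {ε : Fin n → Fin m} {p : ℝ} {κ : Fin n}
    {L : Finset (Fin n) → Fin n → ℝ → ℝ → ℝ} (h : RDq S v ε p κ L) (hne : S.Ne) {C₀ : ℝ}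
    (hC₀ : 0 ≤ C₀) (htm : TmC S C₀) (hF : FZX n) : RDt S v ε p κ L := by
  obtain ⟨p0, p1, hL, ⟨Na, al, g₀, hal, hg₀, hM, hB⟩, D, hD, hcov⟩ := h
  refine ⟨p0, p1, hL, ⟨Na, al, g₀, hal, hg₀, hM, hB⟩, D, hD, fun w hw0 hw1 hwD => ?_⟩
  obtain ⟨σ, hσ, hσ0⟩ := hcov w hw0 hw1 hwD
  refine ⟨σ, hσ, hσ0, fun ρ hρ => ?_⟩
  have h1 := rexv n hF hC₀ htm (atp v p p0.le (p1.trans (by norm_num))) ε (recV_ne hne _ _)
    (fun _ _ _ _ h => h) hL hal hg₀ hM (σ := fun j => σ j) σ.injective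
    (fun j hj => by rw [hσ0 j hj]; exact hB) hσ ρ hρ
  obtain ⟨τ, hτ, J₁, hb⟩ := h1
  refine ⟨τ, hτ, J₁, fun J hJ F A hA => hb J hJ F A ⟨hA, fun h => ?_⟩⟩
  have hb0 := v.b0
  have hb1 := v.b1
  refine (RecV S (atp v p p0.le (p1.trans (by norm_num))) ε).mono ?_ (recV_mk hA h)
  have hc : 0 < (1 - v.b) * (1 - p) := mul_pos (by linarith) (by linarith)
  have h1c : 1 ≤ 1 / ((1 - v.b) * (1 - p)) := by
    rw [le_div_iff₀ hc, one_mul]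
    exact mul_le_one₀ (by linarith) (by linarith) (by linarith)
  calc τ = 1 * τ := (one_mul τ).symm
    _ ≤ 1 / ((1 - v.b) * (1 - p)) * τ := mul_le_mul_of_nonneg_right h1c hτ.le

/-- **The data of countably many zooms** (`rexv_all` of helper83 without exactness). -/
theorem rdq_all {S : PCl m} (hS : S.Ne)
    (hpos : ∀ (τ : ℝ) (J : ℕ) (F : Fam m J) (A : F.Ω → Prop), S.St τ J F A → 0 < Pe F.p A)
    {ι : Type} [Countable ι] (k : ι → ℕ) (v : ι → Vz m) (ε : ∀ i, Fin (k i) → Fin m) :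
    ∃ (S₁ : PCl m) (N : ∀ i, Finset (Fin (k i)) → ℝ → ℝ → ℝ), S₁.Ne ∧
      (∀ (τ : ℝ) (J : ℕ) (F : Fam m J) (A : F.Ω → Prop), S₁.St τ J F A → S.St τ J F A) ∧
      (∀ i, ActN (WyV S₁ (v i) (ε i)) (N i)) ∧
      ∀ (S₂ : PCl m), S₂.Ne →
        (∀ (τ : ℝ) (J : ℕ) (F : Fam m J) (A : F.Ω → Prop), S₂.St τ J F A → S₁.St τ J F A) →
      ∀ e₀ : ℝ, 0 < e₀ → ∃ e : ℝ, 0 < e ∧ e < e₀ ∧
      ∃ (S₃ : PCl m) (L : ∀ i, Finset (Fin (k i)) → Fin (k i) → ℝ → ℝ → ℝ), S₃.Ne ∧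
        (∀ (τ : ℝ) (J : ℕ) (F : Fam m J) (A : F.Ω → Prop), S₃.St τ J F A → S₂.St τ J F A) ∧
        ∀ i, 1 / (1 - (v i).b) * e < ttl (N i) (1 / 2) →
          ttl (N i) (fp (ttl (N i)) (1 / (1 - (v i).b) * e)) = 1 / (1 - (v i).b) * e ∧
          ∃ κ : Fin (k i), RDq S₃ (v i) (ε i) (fp (ttl (N i)) (1 / (1 - (v i).b) * e)) κ (L i) := by
  obtain ⟨S₁, N, hne, hsub, hN⟩ := act_all hS hpos k (fun i => wyZ (v i) (ε i))
  refine ⟨S₁, N, hne, hsub, hN, fun S₂ hne₂ hsub₂ e₀ he₀ => ?_⟩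
  have hc : ∀ i, 0 < 1 / (1 - (v i).b) := fun i => by
    have := (v i).b1
    have h1 : 0 < 1 - (v i).b := by linarith
    positivity
  obtain ⟨e, he, hee, hlev⟩ := lev_gen' (S := fun i => WyV S₁ (v i) (ε i)) hN hc he₀
  -- the tubes
  obtain ⟨p, hp⟩ : ∃ p : ι → ℝ, p = fun i =>
    min (fp (ttl (N i)) (1 / (1 - (v i).b) * e)) (1 / 2) := ⟨_, rfl⟩
  have hp0 : ∀ i, 0 ≤ p i := fun i => by
    rw [hp]
    exact le_min (fp_nonneg _ _) (by norm_num)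
  have hp1 : ∀ i, p i < 1 := fun i => by
    rw [hp]
    exact (min_le_right _ _).trans_lt (by norm_num)
  obtain ⟨S₃, L, hne₃, hsub₃, hL⟩ := lam_all hne₂ k
    (fun i => reZ (atp (v i) (p i) (hp0 i) (hp1 i)) (ε i))
  refine ⟨e, he, hee, S₃, L, hne₃, hsub₃, fun i hi => ?_⟩
  obtain ⟨q0, q1, q2, q3⟩ := hlev i (1 / 2) (by norm_num) (by norm_num) hi
  refine ⟨q2, ?_⟩
  have hpi : p i = fp (ttl (N i)) (1 / (1 - (v i).b) * e) := by
    rw [hp]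
    exact min_eq_left q1.le
  rw [← hpi] at q0 q1 q3 ⊢
  have hsub₃' : ∀ (τ : ℝ) (J : ℕ) (F : Fam m J) (A : F.Ω → Prop), S₃.St τ J F A →
      S₁.St τ J F A := fun τ J F A h => hsub₂ τ J F A (hsub₃ τ J F A h)
  have hpos₃ : ∀ (τ : ℝ) (J : ℕ) (F : Fam m J) (A : F.Ω → Prop), S₃.St τ J F A →
      0 < Pe F.p A := fun τ J F A h => hpos τ J F A (hsub τ J F A (hsub₃' τ J F A h))
  -- the active coordinate
  have hN₃ : ActN (WyV S₃ (v i) (ε i)) (N i) :=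
    actN_of_bas (fun Φ hb => wyv_le (v i) (ε i) (sub_le hsub₃') hb) (hN i)
  obtain ⟨κ, Na, al, g₀, hal, hg₀, hM, hB⟩ := tub_act hN₃ (wyv_pos (v i) (ε i) hpos₃) q0.le q1.le q3
  have hLi : LamW (RecV S₃ (atp (v i) (p i) (hp0 i) (hp1 i)) (ε i)) (L i) := hL i
  have hBi : ActB Na (RecV S₃ (atp (v i) (p i) (hp0 i) (hp1 i)) (ε i)) κ :=
    actB_of_bas (fun Φ hb => Bas.sub (fun τ J F A hA =>
      recv_atp S₃ (v i) (ε i) (p i) (hp0 i) (hp1 i) hA) hb) hB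
  have hneR : (RecV S₃ (atp (v i) (p i) (hp0 i) (hp1 i)) (ε i)).Ne := recV_ne hne₃ _ _
  have hposR : Bas (RecV S₃ (atp (v i) (p i) (hp0 i) (hp1 i)) (ε i)) (fun _ F A => 0 < Pe F.p A) :=
    ⟨1, one_pos, 0, fun J _ F A hA => recv_pos _ _ hpos₃ 1 J F A hA⟩
  refine ⟨κ, q0, q1, hLi, ⟨Na, al, g₀, hal, hg₀, hM, hBi⟩, ?_⟩
  -- the greedy order
  have hκ : ∀ w : ℝ, 0 ≤ w → w < 1 → L i ∅ κ w w = w := fun w hw0 hw1 =>
    hLi.act hneR hal (hM.q hg₀) hBi hposR hw0 hw1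
  obtain ⟨D, hD, hcov⟩ := wv_cover (φ := fun j => j) (κ := κ) hLi hκ
  exact ⟨D, hD, fun w hw0 hw1 hwD => hcov w hw0 hw1 hwD⟩

end Pool.FRX
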