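import Pool.Agent.H65.NFC.Fld
import Pool.Agent.H65.NFC.Rdq
import Pool.Agent.H72.OWN.Low

/-!
# The rates at the places of the grid, from zooms with the context in the record

`RtY`: the rate of the target given a record `Y`. `rate_real`: the rates of `RDq.rate` at real
places. `ZmN`: a zoom of the class whose record contains `Y`, whose number of the closed labels of
the target is at most `R₀` and in which the target is the last coordinate of a greedy order.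
`rate_zoom`: the rates of the target for all data of the grid from the rates given the context of
one datum in the subclasses with one datum (by `bas_low` of helper72).
-/

set_option autoImplicit false

namespace Pool.NFC65

open Finset MvPolynomial
open Pool.Agent.H49.Ent Pool.Agent.H32.Dense Pool.STK Pool.KS3 Pool.STAT Pool.STAT.CLO Pool.MIC6
open Pool.KA Pool.KSAT Pool.PB Pool.GEN Pool.K2S Pool.S6C
open Pool.REX Pool.REX83 Pool.FRX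

variable {m n k J : ℕ}

/-- **The rate of the target `c (n - 1)` given the record `Y`**, the base `c 0, …, c (n - 2)` to
`y J` digits for any `y ≤ y₀`, and the time, for the digits between `R₀` and `R'`: the deficit is at
most `x`. -/
def RtY (S : PCl m) (c : ℕ → Fin m) (n : ℕ) (x y₀ R' R₀ : ℝ) {κY : ∀ J : ℕ, Fam m J → Type}
    (Y : ∀ (J : ℕ) (F : Fam m J), F.Ω → κY J F) : Prop :=
  ∀ y : ℝ, y ≤ y₀ → ∀ R₁ R₂ : ℝ, R₀ ≤ R₁ → R₁ ≤ R₂ → R₂ ≤ R' → ∀ ρ : ℝ, 0 < ρ →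
    Bas S (fun J F A => ((1 - x) * (R₂ - R₁) - ρ) * Real.log 2 * J ≤
      CH (Pool.Agent.H49.Ent.cond F.p A True) (fun ω => F.X ⌊R₂ * J⌋₊ ω (c (n - 1)))
        (fun ω => (F.X ⌊R₁ * J⌋₊ ω (c (n - 1)), ((fun l : Fin (n - 1) => F.X ⌊y * J⌋₊ ω (c l)),
          (Y J F ω, F.T ω)))))

theorem RtY.mono {S : PCl m} {c : ℕ → Fin m} {x y₀ y₁ R' R'' R₀ R₀' : ℝ}
    {κY : ∀ J : ℕ, Fam m J → Type} {Y : ∀ (J : ℕ) (F : Fam m J), F.Ω → κY J F}
    (h : RtY S c n x y₀ R' R₀ Y) (hy : y₁ ≤ y₀) (hR : R₀ ≤ R₀') (hR' : R'' ≤ R') :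
    RtY S c n x y₁ R'' R₀' Y :=
  fun y hy' R₁ R₂ h1 h2 h3 => h y (hy'.trans hy) R₁ R₂ (hR.trans h1) h2 (h3.trans hR')

/-- A coarser record. -/
theorem RtY.record {S : PCl m} (hpos : Bas S (fun _ F A => 0 < Pe F.p A)) {c : ℕ → Fin m}
    {x y₀ R' R₀ : ℝ} {κY κZ : ∀ J : ℕ, Fam m J → Type} {Y : ∀ (J : ℕ) (F : Fam m J), F.Ω → κY J F}
    {Z : ∀ (J : ℕ) (F : Fam m J), F.Ω → κZ J F} (h : RtY S c n x y₀ R' R₀ Y)
    (hY : Bas S fun J F A => ∀ ω ω', A ω → A ω' → Y J F ω = Y J F ω' → F.T ω = F.T ω' →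
      Z J F ω = Z J F ω') :
    RtY S c n x y₀ R' R₀ Z := by
  intro y hy R₁ R₂ h1 h12 h2 ρ hρ
  refine Bas.mono 0 (Bas.and (Bas.and hpos hY) (h y hy R₁ R₂ h1 h12 h2 ρ hρ)) fun J _ F A hA => ?_
  obtain ⟨⟨f1, f3⟩, f2⟩ := hA
  refine f2.trans (CH_mono_cond (isLaw_cond F.isLaw f1).nonneg fun ω ω' x1 x2 e => ?_)
  have e1 := Prod.ext_iff.1 e
  have e2 := Prod.ext_iff.1 e1.2
  have e3 := Prod.ext_iff.1 e2.2
  exact Prod.ext e1.1 (Prod.ext e2.1 (Prod.ext (f3 ω ω' (Pool.PB.End.of_cond_pos x1)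
    (Pool.PB.End.of_cond_pos x2) e3.1 e3.2) e3.2))

/-- **The rates at real places.** -/
theorem rate_real {S : PCl m} {v : Vz m} {ε : Fin k → Fin m} {p : ℝ} {κ : Fin k}
    {L : Finset (Fin k) → Fin k → ℝ → ℝ → ℝ} (h : RDq S v ε p κ L) (hne : S.Ne) {C₀ : ℝ}
    (hC₀ : 0 ≤ C₀) (htm : TmC S C₀) {x : ℝ} (hF : FZQ k x) {w : ℝ} {σ : Fin k → Fin k}
    (hσ : Function.Injective σ) (hw : w ∈ Wv L σ) (hσ0 : ∀ j : Fin k, (j : ℕ) = 0 → σ j = κ)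
    {i : Fin k} (hi : (i : ℕ) + 1 = k) {R₁ R₂ : ℝ}
    (h1 : v.b + (1 - v.b) * (p + (1 - p) * vs L σ w k) ≤ R₁) (h12 : R₁ ≤ R₂) (h2 : R₂ ≤ 1)
    {ρ : ℝ} (hρ : 0 < ρ) : Bas S (fun J F A =>
      ((1 - x) * (R₂ - R₁) - ρ) * Real.log 2 * J ≤
        CH (Pool.Agent.H49.Ent.cond F.p A True) (fun ω => F.X ⌊R₂ * J⌋₊ ω (ε (σ i)))
          (fun ω => (dB F (fun j => ε (σ j)) i ⌊R₁ * J⌋₊ ω, (v.y J F ω, F.W ω)))) := by
  have hb1 : 0 < 1 - v.b := by have := v.b1; linarith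
  have hp1 : 0 < 1 - p := by have := h.p1; linarith
  have e : ∀ R : ℝ, v.b + (1 - v.b) * (p + (1 - p) * (((R - v.b) / (1 - v.b) - p) / (1 - p))) =
      R := by
    intro R
    rw [mul_div_cancel₀ _ hp1.ne', add_sub_cancel, mul_div_cancel₀ _ hb1.ne', add_sub_cancel]
  have hmono : ∀ R R' : ℝ, R ≤ R' → ((R - v.b) / (1 - v.b) - p) / (1 - p) ≤
      ((R' - v.b) / (1 - v.b) - p) / (1 - p) := fun R R' hR =>
    div_le_div_of_nonneg_right (sub_le_sub_right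
      (div_le_div_of_nonneg_right (sub_le_sub_right hR _) hb1.le) _) hp1.le
  have e1 : ((v.b + (1 - v.b) * (p + (1 - p) * vs L σ w k) - v.b) / (1 - v.b) - p) / (1 - p) =
      vs L σ w k := by
    rw [add_sub_cancel_left, mul_div_cancel_left₀ _ hb1.ne', add_sub_cancel_left,
      mul_div_cancel_left₀ _ hp1.ne']
  have e2 : ((1 - v.b) / (1 - v.b) - p) / (1 - p) = 1 := by
    rw [div_self hb1.ne', div_self hp1.ne']
  have key := Pool.FRX.RDq.rate h hne hC₀ htm hF hσ hw hσ0 hi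
    (Q₁ := ((R₁ - v.b) / (1 - v.b) - p) / (1 - p)) (Q₂ := ((R₂ - v.b) / (1 - v.b) - p) / (1 - p))
    (e1.symm.le.trans (hmono _ _ h1)) (hmono _ _ h12) ((hmono _ _ h2).trans e2.le) hρ
  simp only [e] at key
  exact key

/-- **A zoom of the class with the record `Y`** (for large `J`), whose number of the closed labels
of the target `c (n - 1)` over the other coordinates is at most `R₀`; the target is the last
coordinate of a greedy order. -/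
def ZmN (S : PCl m) (k : ℕ) (c : ℕ → Fin m) (n : ℕ) (R₀ : ℝ) {κY : ∀ J : ℕ, Fam m J → Type}
    (Y : ∀ (J : ℕ) (F : Fam m J), F.Ω → κY J F) : Prop :=
  ∃ (v : Vz m) (ε : Fin k → Fin m) (p : ℝ) (κ : Fin k)
    (L : Finset (Fin k) → Fin k → ℝ → ℝ → ℝ) (w : ℝ) (σ : Fin k → Fin k) (i : Fin k),
    RDq S v ε p κ L ∧ Function.Injective σ ∧ w ∈ Wv L σ ∧
    (∀ j : Fin k, (j : ℕ) = 0 → σ j = κ) ∧ (i : ℕ) + 1 = k ∧ ε (σ i) = c (n - 1) ∧
    (∀ l < n - 1, ∃ j : Fin k, j ≠ i ∧ ε (σ j) = c l) ∧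
    v.b + (1 - v.b) * (p + (1 - p) * vs L σ w k) ≤ R₀ ∧
    ∃ J₁ : ℕ, ∀ J ≥ J₁, ∀ (F : Fam m J) (ω ω' : F.Ω), v.y J F ω = v.y J F ω' →
      Y J F ω = Y J F ω'

theorem ZmN.mono {S : PCl m} {c : ℕ → Fin m} {R₀ R₁ : ℝ} {κY : ∀ J : ℕ, Fam m J → Type}
    {Y : ∀ (J : ℕ) (F : Fam m J), F.Ω → κY J F} (h : ZmN S k c n R₀ Y) (hR : R₀ ≤ R₁) :
    ZmN S k c n R₁ Y := by
  obtain ⟨v, ε, p, κ, L, w, σ, i, h1, h2, h3, h4, h5, h6, h7, h8, h9⟩ := h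
  exact ⟨v, ε, p, κ, L, w, σ, i, h1, h2, h3, h4, h5, h6, h7, h8.trans hR, h9⟩

/-- **The rate of the target given the record `Y`**, from a zoom. -/
theorem ZmN.rate {S : PCl m} {c : ℕ → Fin m} {R₀ : ℝ} {κY : ∀ J : ℕ, Fam m J → Type}
    {Y : ∀ (J : ℕ) (F : Fam m J), F.Ω → κY J F} (h : ZmN S k c n R₀ Y) (hne : S.Ne) {C₀ : ℝ}
    (hC₀ : 0 ≤ C₀) (htm : TmC S C₀) {x : ℝ} (hF : FZQ k x) : RtY S c n x 1 1 R₀ Y := by
  intro y hy R₁ R₂ h1 h12 h2 ρ hρ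
  obtain ⟨v, ε, p, κ, L, w, σ, i, a1, a2, a3, a4, a5, a6, a7, a8, J₁, a9⟩ := h
  have key := rate_real a1 hne hC₀ htm hF a2 a3 a4 a5 (a8.trans h1) h12 h2 hρ
  have hpos : Bas S (fun _ F A => 0 < Pe F.p A) :=
    ⟨1, one_pos, 0, fun J _ F A hA => (htm 1 J F A one_pos hA).1⟩
  refine Bas.mono J₁ (Bas.and hpos key) fun J hJ F A hA => ?_
  obtain ⟨f1, f2⟩ := hA
  rw [a6] at f2
  refine f2.trans (CH_mono_cond (isLaw_cond F.isLaw f1).nonneg fun ω ω' _ _ e => ?_)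
  simp only [dB, Prod.mk.injEq] at e
  obtain ⟨⟨e1, e2⟩, e3, e4⟩ := e
  refine Prod.ext (by rw [← a6]; exact e1) (Prod.ext ?_ (Prod.ext (a9 J hJ F ω ω' e3)
    (congrArg Prod.fst e4)))
  funext l
  obtain ⟨j, j1, j2⟩ := a7 l l.2
  have h3 := congrFun e2 j
  rw [if_neg j1, if_neg j1, j2] at h3
  have h4 : ⌊y * J⌋₊ ≤ J := by
    refine Nat.floor_le_of_le ?_
    have := mul_le_mul_of_nonneg_right hy (Nat.cast_nonneg (α := ℝ) J)
    linarith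
  exact X_det F h4 _ h3

/-- The data of a grid are a nonempty type. -/
noncomputable instance {F : Fam m J} : Nonempty (GDat F) :=
  ⟨{ G := fun _ _ _ _ => 0
     H := fun _ _ _ _ => 0
     zL := fun _ _ _ => (0, fun _ _ => 0)
     PL := fun _ _ _ _ => 0
     zS := fun _ _ _ => (0, fun _ _ => 0)
     zS' := fun _ _ _ _ => (0, fun _ _ => 0)
     PS := fun _ _ _ _ => 0 }⟩

/-- **The rates of the target for all data of the grid**, from the rates given the context of one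
datum in the subclasses with one datum. -/
theorem rate_zoom (n K K' s₁ : ℕ) (sh : ℕ → ℕ) {S : PCl m}
    (hpos : ∀ (τ : ℝ) (J : ℕ) (F : Fam m J) (A : F.Ω → Prop), S.St τ J F A → 0 < Pe F.p A)
    {W : GrdP m} (hW : W.Her) {M : ℕ} {c : ℕ → Fin m} {α ϖ ζ : ℝ} {e : ℕ → ℕ → ℝ}
    {b : ℕ → ℕ → ℕ → ℝ} {R : (J : ℕ) → (F : Fam m J) → GDat F → ℕ → ℕ → Type}
    {ρ : (J : ℕ) → (F : Fam m J) → (D : GDat F) → (i j : ℕ) → LnT F → R J F D i j}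
    {x y₀ : ℝ} {i j : ℕ} {R' R₀ : ℝ}
    (hz : ∀ S' : PCl m, S'.Ne → (∀ (τ : ℝ) (J : ℕ) (F : Fam m J) (A : F.Ω → Prop),
        S'.St τ J F A → S.St τ J F A) → ∀ d : ∀ (J : ℕ) (F : Fam m J), GDat F,
      (∀ (τ : ℝ) (J : ℕ) (F : Fam m J) (A : F.Ω → Prop), S'.St τ J F A →
        (d J F).Ok c n K K' s₁ sh (up α J) (up ϖ J) (up ζ J) M
          (fun i j => ⌊e i j * J⌋₊) (fun i j l => ⌊b i j l * J⌋₊) A ∧ W J F (d J F) A) →
      ∃ S'' : PCl m, S''.Ne ∧ (∀ (τ : ℝ) (J : ℕ) (F : Fam m J) (A : F.Ω → Prop),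
        S''.St τ J F A → S'.St τ J F A) ∧
        RtY S'' c n x y₀ R' R₀ (fun J F ω =>
          ((d J F).cd n (ρ J F (d J F))).lab2 (up ϖ J) (up ζ J) i j ω))
    {y : ℝ} (hy : y ≤ y₀) {R₁ R₂ : ℝ} (h01 : R₀ ≤ R₁) (h12 : R₁ ≤ R₂) (h2 : R₂ ≤ R') {ε : ℝ}
    (hε : 0 < ε) :
    FldV S W c n K K' s₁ sh α ϖ ζ M e b
      (fun J F D q => RtP D c n (ρ J F D) (up ϖ J) (up ζ J) i j ⌊y * J⌋₊ ⌊R₁ * J⌋₊ ⌊R₂ * J⌋₊
        (((1 - x) * (R₂ - R₁) - ε) * Real.log 2 * J) q) := by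
  have hl2 : 0 < Real.log 2 := Real.log_pos one_lt_two
  have hlow := Pool.OWN72.bas_low (S := S) hpos (Δ := fun J F => GDat F)
    (fun J F D A => D.Ok c n K K' s₁ sh (up α J) (up ϖ J) (up ζ J) M
      (fun i j => ⌊e i j * J⌋₊) (fun i j l => ⌊b i j l * J⌋₊) A ∧ W J F D A)
    (fun J F D A B h hB => ⟨GDat.Ok.sub h.1 hB, hW hB h.2⟩)
    (β := fun _ _ _ => ℤ)
    (γ := fun J F D => ℤ × ((Fin (n - 1) → ℤ) ×
      ((((i' j' : ℕ) → Option ((D.cd n (ρ J F D)).V i' j')) × ℕ) × ℕ)))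
    (fun J F D ω => F.X ⌊R₂ * J⌋₊ ω (c (n - 1)))
    (fun J F D ω => (F.X ⌊R₁ * J⌋₊ ω (c (n - 1)),
      ((fun l : Fin (n - 1) => F.X ⌊y * J⌋₊ ω (c l)),
      ((D.cd n (ρ J F D)).lab2 (up ϖ J) (up ζ J) i j ω, F.T ω))))
    (fun J _ _ => (1 - x) * (R₂ - R₁) * Real.log 2 * J)
    (C := |(1 - x) * (R₂ - R₁) * Real.log 2|) (δ := ε * Real.log 2)
    (fun J F d => mul_le_mul_of_nonneg_right (le_abs_self _) (Nat.cast_nonneg J))
    (mul_pos hε hl2) ?_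
  · refine Bas.mono 0 hlow fun J _ F A h D hD hX => ?_
    have h1 := h D ⟨hD, hX⟩
    show _ ≤ _
    refine le_trans (le_of_eq ?_) h1
    ring
  · intro S' hne hsub d hd
    obtain ⟨S'', hne'', hsub'', hZ⟩ := hz S' hne hsub d hd
    refine ⟨S'', hne'', hsub'', ?_⟩
    have key := hZ y hy R₁ R₂ h01 h12 h2 (ε / 4) (by positivity)
    refine Bas.mono 0 key fun J _ F A f2 => ?_
    have e1 : (1 - x) * (R₂ - R₁) * Real.log 2 * J - ε * Real.log 2 / 4 * J =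
        ((1 - x) * (R₂ - R₁) - ε / 4) * Real.log 2 * J := by ring
    rw [e1]
    exact f2

end Pool.NFC65
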